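import Pool.Agent.Helper45.AE.Piece

/-!
# Additive equations: a set given by an additive equation contains a large box
-/

set_option autoImplicit false

namespace Pool.Agent.Helper45.AE

open Finset
open scoped Pointwise

variable {W : Type*} [AddCommGroup W] [Fintype W] [DecidableEq W]

omit [AddCommGroup W] in
/-- the sum over rows -/
theorem card_rows (A : Finset (W × W)) (X : Finset W) :
    #(A.filter fun p => p.1 ∈ X) = ∑ x ∈ X, #(A.filter fun p => p.1 = x) := by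
  rw [Finset.card_eq_sum_card_fiberwise (f := fun p : W × W => p.1) (t := X)]
  · refine Finset.sum_congr rfl fun x hx => ?_
    rw [Finset.filter_filter]
    congr 1
    ext p
    simp only [mem_filter]
    constructor
    · rintro ⟨h1, _, h3⟩; exact ⟨h1, h3⟩
    · rintro ⟨h1, h3⟩; exact ⟨h1, h3 ▸ hx, h3⟩
  · intro p hp
    exact mem_coe.2 (mem_filter.1 (mem_coe.1 hp)).2

theorem num_piece (β n x0 x4 : ℝ) (hβ : 0 < β) (hβ2 : β ≤ 1 / 2) (hn : 0 ≤ n) (hx4 : 0 ≤ x4)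
    (h1 : β * n ≤ x0)
    (h2 : x0 ≤ 8 * (β⁻¹) ^ 4 * (2 ^ 22 * ((β⁻¹) ^ 4) ^ 10) ^ 333 * x4) :
    β ^ 20654 * n ≤ x4 := by
  set b := β⁻¹ with hb
  have hb2 : 2 ≤ b := by
    rw [hb, le_inv_comm₀ (by norm_num) hβ]; linarith
  have hb0 : 0 < b := by linarith
  have e1 : 8 * b ^ 4 * (2 ^ 22 * (b ^ 4) ^ 10) ^ 333 ≤ b ^ 20653 := by
    have h8 : (8 : ℝ) ≤ b ^ 3 := by
      have := pow_le_pow_left₀ (by norm_num) hb2 3
      norm_num at this ⊢; exact this
    have h22 : (2 : ℝ) ^ 22 ≤ b ^ 22 := pow_le_pow_left₀ (by norm_num) hb2 22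
    calc 8 * b ^ 4 * (2 ^ 22 * (b ^ 4) ^ 10) ^ 333
        ≤ b ^ 3 * b ^ 4 * (b ^ 22 * (b ^ 4) ^ 10) ^ 333 := by gcongr
      _ = b ^ 20653 := by
        rw [← pow_mul, ← pow_add, ← pow_add, ← pow_mul, ← pow_add]
  have e2 : β * n ≤ b ^ 20653 * x4 :=
    h1.trans (h2.trans (mul_le_mul_of_nonneg_right e1 hx4))
  have e3 : β ^ 20653 * b ^ 20653 = 1 := by
    rw [← mul_pow, hb, mul_inv_cancel₀ hβ.ne', one_pow]
  calc β ^ 20654 * n = β ^ 20653 * (β * n) := by rw [pow_succ]; ring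
    _ ≤ β ^ 20653 * (b ^ 20653 * x4) := mul_le_mul_of_nonneg_left e2 (by positivity)
    _ = x4 := by rw [← mul_assoc, e3, one_mul]

/-- Let `F x + G y + H (x + y) = 0` on `A`. Then `F` is affine on a set `X` of first coordinates which
contains a good part of `A`. -/
theorem piece {K : Type*} [AddCommGroup K] (h2 : ∀ w : W, w + w = 0)
    (F G H : W → K) (A : Finset (W × W)) (hA : ∀ p ∈ A, F p.1 + G p.2 + H (p.1 + p.2) = 0)
    {δ : ℝ} (hδ : 0 < δ) (hδ1 : δ ≤ 1) (hd : δ * (Fintype.card W : ℝ) ^ 2 ≤ #A) :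
    ∃ (X : Finset W) (ψ : W →+ K) (c : K), (∀ x ∈ X, F x = ψ x + c) ∧
      (δ / 2) ^ 20655 * (Fintype.card W : ℝ) ^ 2 ≤ #(A.filter fun p => p.1 ∈ X) := by
  classical
  set N : ℝ := (Fintype.card W : ℝ) with hN
  have hN0 : 0 < N := by
    rw [hN]; exact_mod_cast Fintype.card_pos_iff.2 ⟨(0 : W)⟩
  set β : ℝ := δ / 2 with hβ
  have hβ0 : 0 < β := by rw [hβ]; linarith
  have hβ2 : β ≤ 1 / 2 := by rw [hβ]; linarith
  set X0 : Finset W := univ.filter fun x => β * N ≤ #(A.filter fun p => p.1 = x) with hX0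
  set A0 := A.filter fun p => p.1 ∈ X0 with hA0
  have hsplit : (#A : ℝ) ≤ #A0 + β * N ^ 2 := by
    have h1 : #A = #A0 + #(A.filter fun p => p.1 ∈ X0ᶜ) := by
      rw [hA0, ← Finset.card_filter_add_card_filter_not (s := A) (fun p => p.1 ∈ X0)]
      congr 2
      ext p
      simp
    have h3 : (#(A.filter fun p => p.1 ∈ X0ᶜ) : ℝ) ≤ β * N ^ 2 := by
      rw [card_rows]
      push_cast
      calc ∑ x ∈ X0ᶜ, (#(A.filter fun p => p.1 = x) : ℝ) ≤ ∑ _x ∈ X0ᶜ, β * N := by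
            refine Finset.sum_le_sum fun x hx => ?_
            rw [mem_compl, hX0, mem_filter, not_and] at hx
            exact (not_le.1 (hx (mem_univ _))).le
        _ = #(X0ᶜ) * (β * N) := by rw [Finset.sum_const, nsmul_eq_mul]
        _ ≤ N * (β * N) := by
            refine mul_le_mul_of_nonneg_right ?_ (by positivity)
            rw [hN]; exact_mod_cast Finset.card_le_univ _
        _ = β * N ^ 2 := by ring
    rw [h1]; push_cast; linarith
  have hA0c : β * N ^ 2 ≤ #A0 := by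
    have : δ * N ^ 2 = β * N ^ 2 + β * N ^ 2 := by rw [hβ]; ring
    linarith
  have hX0c : β * N ≤ #X0 := by
    have h1 : #A0 ≤ #X0 * Fintype.card W := by
      rw [← Finset.card_univ, ← Finset.card_product]
      refine Finset.card_le_card fun p hp => ?_
      rw [mem_product]
      exact ⟨(mem_filter.1 hp).2, mem_univ _⟩
    have h3 : β * N * N ≤ #X0 * N := by
      calc β * N * N = β * N ^ 2 := by ring
        _ ≤ #A0 := hA0c
        _ ≤ #X0 * N := by rw [hN]; exact_mod_cast h1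
    exact le_of_mul_le_mul_right h3 hN0
  have hX0ne : X0.Nonempty := by
    rw [← Finset.card_pos]
    have : (0 : ℝ) < #X0 := lt_of_lt_of_le (by positivity) hX0c
    exact_mod_cast this
  have hen := energy F G H A0 X0 (fun p hp => (mem_filter.1 hp).2)
    (fun p hp => hA p (mem_filter.1 hp).1)
  have hen' : (#A0 : ℝ) ^ 4 ≤ N ^ 5 * ((graph F X0).addEnergy (graph F X0) : ℕ) := by
    rw [hN]; exact_mod_cast hen
  have hE : (#X0 : ℝ) ^ 3 ≤ (β⁻¹) ^ 4 * ((graph F X0).addEnergy (graph F X0) : ℕ) := by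
    set E : ℝ := (((graph F X0).addEnergy (graph F X0) : ℕ) : ℝ) with hEdef
    have hX0N : (#X0 : ℝ) ≤ N := by rw [hN]; exact_mod_cast Finset.card_le_univ _
    have h3 : (β * N ^ 2) ^ 4 ≤ N ^ 5 * E :=
      (pow_le_pow_left₀ (by positivity) hA0c 4).trans hen'
    have h4 : β ^ 4 * N ^ 3 ≤ E := by
      have : N ^ 5 * (β ^ 4 * N ^ 3) ≤ N ^ 5 * E := by
        calc N ^ 5 * (β ^ 4 * N ^ 3) = (β * N ^ 2) ^ 4 := by ring
          _ ≤ _ := h3
      exact le_of_mul_le_mul_left this (by positivity)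
    calc (#X0 : ℝ) ^ 3 ≤ N ^ 3 := pow_le_pow_left₀ (by positivity) hX0N 3
      _ = (β⁻¹) ^ 4 * (β ^ 4 * N ^ 3) := by field_simp
      _ ≤ _ := mul_le_mul_of_nonneg_left h4 (by positivity)
  obtain ⟨X4, hX4, -, hc4, ψ, c, hψ⟩ := affine_energy h2 F hX0ne (k := (β⁻¹) ^ 4) (by positivity) hE
  refine ⟨X4, ψ, c, hψ, ?_⟩
  have h5 := num_piece β N #X0 #X4 hβ0 hβ2 hN0.le (Nat.cast_nonneg _) hX0c hc4
  rw [card_rows]
  push_cast
  calc β ^ 20655 * N ^ 2 = (β ^ 20654 * N) * (β * N) := by rw [pow_succ]; ring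
    _ ≤ #X4 * (β * N) := mul_le_mul_of_nonneg_right h5 (by positivity)
    _ = ∑ _x ∈ X4, β * N := by rw [Finset.sum_const, nsmul_eq_mul]
    _ ≤ ∑ x ∈ X4, (#(A.filter fun p => p.1 = x) : ℝ) := by
      refine Finset.sum_le_sum fun x hx => ?_
      exact (mem_filter.1 (hX4 hx)).2

/-- the box `{(x, y) : x ∈ X, y ∈ Y, x + y ∈ Z}` -/
def box (X Y Z : Finset W) : Finset (W × W) :=
  univ.filter fun p => p.1 ∈ X ∧ p.2 ∈ Y ∧ p.1 + p.2 ∈ Z

/-- The last step: all three functions are affine. -/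
theorem box_of_affine {K : Type*} [AddCommGroup K] (F G H : W → K) (A A3 : Finset (W × W))
    (hA : ∀ p, p ∈ A ↔ F p.1 + G p.2 + H (p.1 + p.2) = 0) (hA3 : A3 ⊆ A) (X Y Z : Finset W)
    (hX : ∀ p ∈ A3, p.1 ∈ X) (hY : ∀ p ∈ A3, p.2 ∈ Y) (hZ : ∀ p ∈ A3, p.1 + p.2 ∈ Z)
    (ψ φ χ : W →+ K) (a b c : K) (hF : ∀ x ∈ X, F x = ψ x + a) (hG : ∀ y ∈ Y, G y = φ y + b)
    (hH : ∀ w ∈ Z, H w = χ w + c) :
    ∃ X' Y' Z' : Finset W, box X' Y' Z' ⊆ A ∧
      #A3 ^ 2 ≤ Fintype.card W ^ 2 * #(box X' Y' Z') := by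
  classical
  rcases A3.eq_empty_or_nonempty with h0 | hne
  · refine ⟨∅, ∅, ∅, fun p hp => ?_, by rw [h0]; simp⟩
    simp [box] at hp
  have hrel : ∀ p ∈ A3, (ψ + χ) p.1 + (φ + χ) p.2 + (a + b + c) = 0 := by
    intro p hp
    have := (hA p).1 (hA3 hp)
    rw [hF _ (hX p hp), hG _ (hY p hp), hH _ (hZ p hp), map_add] at this
    rw [← this]
    simp only [AddMonoidHom.add_apply]
    abel
  set M := ψ + χ with hM
  set R : Finset K := univ.image M with hR
  have hu : ∀ r ∈ R, ∃ u, M u = r := fun r hr => by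
    obtain ⟨u, -, hu⟩ := mem_image.1 hr
    exact ⟨u, hu⟩
  choose! u hu using hu
  have h1 : #R * #A3 ≤ Fintype.card W ^ 2 := by
    have : Fintype.card W ^ 2 = #(univ : Finset (W × W)) := by
      rw [Finset.card_univ, Fintype.card_prod, sq]
    rw [this, ← Finset.card_product]
    refine Finset.card_le_card_of_injOn (fun q => (q.2.1 + u q.1, q.2.2)) (fun _ _ => mem_coe.2 (mem_univ _)) ?_
    intro q hq q' hq' h
    rw [mem_coe, mem_product] at hq hq'
    rw [Prod.mk.injEq] at h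
    have e1 := hrel _ hq.2
    have e2 := hrel _ hq'.2
    rw [← h.2] at e2
    have e3 : M q.2.1 = M q'.2.1 := add_right_cancel (add_right_cancel (e1.trans e2.symm))
    have e4 := congrArg M h.1
    rw [map_add, map_add, hu _ hq.1, hu _ hq'.1, e3] at e4
    have e5 : q.1 = q'.1 := add_left_cancel e4
    have e6 := h.1
    rw [e5] at e6
    exact Prod.ext e5 (Prod.ext (add_right_cancel e6) h.2)
  have him : (#(A3.image fun p => M p.1) : ℝ) ≤ #R := by
    have : #(A3.image fun p => M p.1) ≤ #R := by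
      refine Finset.card_le_card fun k hk => ?_
      obtain ⟨p, _, rfl⟩ := mem_image.1 hk
      exact mem_image_of_mem _ (mem_univ _)
    exact_mod_cast this
  obtain ⟨μ, hμ, -⟩ := exists_fiber hne (fun p => M p.1) him
  refine ⟨X.filter fun x => M x = μ, Y.filter fun y => μ + (φ + χ) y + (a + b + c) = 0, Z, ?_, ?_⟩
  · intro p hp
    simp only [box, mem_filter, mem_univ, true_and] at hp
    obtain ⟨⟨h3, h4⟩, ⟨h5, h6⟩, h7⟩ := hp
    rw [hA, hF _ h3, hG _ h5, hH _ h7, map_add]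
    rw [← h4, hM] at h6
    rw [← h6]
    simp only [AddMonoidHom.add_apply]
    abel
  · have h3 : #(A3.filter fun p => M p.1 = μ) ≤
        #(box (X.filter fun x => M x = μ) (Y.filter fun y => μ + (φ + χ) y + (a + b + c) = 0) Z) := by
      refine Finset.card_le_card fun p hp => ?_
      obtain ⟨h4, h5⟩ := mem_filter.1 hp
      simp only [box, mem_filter, mem_univ, true_and]
      refine ⟨⟨hX p h4, h5⟩, ⟨hY p h4, ?_⟩, hZ p h4⟩
      rw [← h5]
      exact hrel p h4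
    have h4 : #A3 ≤ #R * #(A3.filter fun p => M p.1 = μ) := by exact_mod_cast hμ
    calc #A3 ^ 2 = #A3 * #A3 := sq _
      _ ≤ (#R * #(A3.filter fun p => M p.1 = μ)) * #A3 := Nat.mul_le_mul_right _ h4
      _ = (#R * #A3) * #(A3.filter fun p => M p.1 = μ) := by ring
      _ ≤ _ := Nat.mul_le_mul h1 h3

theorem num_chain (δ : ℝ) (hδ : 0 < δ) (hδ1 : δ ≤ 1) (a : ℕ) (ha : 1 ≤ a) :
    0 < (δ / 2) ^ a ∧ (δ / 2) ^ a ≤ 1 / 2 ∧ ((δ / 2) ^ a) ^ 2 ≤ (δ / 2) ^ a / 2 := by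
  have h0 : 0 < δ / 2 := by linarith
  have h1 : δ / 2 ≤ 1 / 2 := by linarith
  have h3 : (δ / 2) ^ a ≤ 1 / 2 := by
    calc (δ / 2) ^ a ≤ (δ / 2) ^ 1 := pow_le_pow_of_le_one h0.le (by linarith) ha
      _ ≤ 1 / 2 := by rw [pow_one]; exact h1
  refine ⟨by positivity, h3, ?_⟩
  have h4 : 0 < (δ / 2) ^ a := by positivity
  nlinarith

theorem num_final (x : ℝ) (hx : 0 < x) (a : ℕ) (d1 d2 d3 : ℝ) (h1 : d1 = x ^ a)
    (h2 : d2 = (d1 / 2) ^ a) (h3 : d3 = (d2 / 2) ^ a) (r1 : d1 ^ 2 ≤ d1 / 2)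
    (r2 : d2 ^ 2 ≤ d2 / 2) : x ^ (8 * a ^ 3) ≤ d3 ^ 2 := by
  have p1 : 0 < d1 := by rw [h1]; positivity
  have p2 : 0 < d2 := by rw [h2]; positivity
  have e2 : d1 ^ (2 * a) ≤ d2 := by
    rw [h2, pow_mul]
    exact pow_le_pow_left₀ (by positivity) r1 a
  have e3 : d2 ^ (2 * a) ≤ d3 := by
    rw [h3, pow_mul]
    exact pow_le_pow_left₀ (by positivity) r2 a
  calc x ^ (8 * a ^ 3) = (((d1 ^ (2 * a)) ^ (2 * a))) ^ 2 := by
        rw [h1, ← pow_mul, ← pow_mul, ← pow_mul]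
        congr 1
        ring
    _ ≤ (d2 ^ (2 * a)) ^ 2 := by
        have : (0 : ℝ) ≤ d1 ^ (2 * a) := by positivity
        gcongr
    _ ≤ d3 ^ 2 := by
        have : (0 : ℝ) ≤ d2 ^ (2 * a) := by positivity
        gcongr

/-- **A set given by an additive equation contains a large box.** -/
theorem exists_box {K : Type*} [AddCommGroup K] (h2 : ∀ w : W, w + w = 0)
    (F G H : W → K) (A : Finset (W × W))
    (hA : ∀ p, p ∈ A ↔ F p.1 + G p.2 + H (p.1 + p.2) = 0)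
    {δ : ℝ} (hδ : 0 < δ) (hδ1 : δ ≤ 1) (hd : δ * (Fintype.card W : ℝ) ^ 2 ≤ #A) :
    ∃ X Y Z : Finset W, box X Y Z ⊆ A ∧
      (δ / 2) ^ (8 * 20655 ^ 3) * (Fintype.card W : ℝ) ^ 2 ≤ #(box X Y Z) := by
  classical
  set N : ℝ := (Fintype.card W : ℝ) with hN
  have hN0 : 0 < N := by
    rw [hN]; exact_mod_cast Fintype.card_pos_iff.2 ⟨(0 : W)⟩
  set a : ℕ := 20655 with ha
  -- first coordinate
  obtain ⟨X, ψ, cX, hψ, h1⟩ := piece h2 F G H A (fun p hp => (hA p).1 hp) hδ hδ1 hd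
  set A1 := A.filter fun p => p.1 ∈ X with hA1
  obtain ⟨p1, q1, r1⟩ := num_chain δ hδ hδ1 a (by norm_num [ha])
  set d1 := (δ / 2) ^ a with hd1
  -- second coordinate
  set B1 := A1.image Prod.swap with hB1
  have hB1c : #B1 = #A1 := Finset.card_image_of_injective _ Prod.swap_injective
  obtain ⟨Y, φ, cY, hφ, h3⟩ := piece h2 G F H B1 (fun p hp => by
    obtain ⟨q, hq, rfl⟩ := mem_image.1 hp
    have := (hA q).1 (mem_filter.1 hq).1
    rw [← this]
    simp only [Prod.fst_swap, Prod.snd_swap]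
    rw [add_comm (G q.2), add_comm q.2]) p1 (q1.trans (by norm_num)) (by rw [hB1c]; exact h1)
  set A2 := A1.filter fun p => p.2 ∈ Y with hA2
  have h4 : #(B1.filter fun p => p.1 ∈ Y) = #A2 := by
    have : B1.filter (fun p => p.1 ∈ Y) = A2.image Prod.swap := by
      ext p
      simp only [hB1, hA2, mem_filter, mem_image]
      constructor
      · rintro ⟨⟨q, hq, rfl⟩, h⟩
        exact ⟨q, ⟨hq, h⟩, rfl⟩
      · rintro ⟨q, ⟨hq, h⟩, rfl⟩
        exact ⟨⟨q, hq, rfl⟩, h⟩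
    rw [this, Finset.card_image_of_injective _ Prod.swap_injective]
  rw [h4] at h3
  obtain ⟨p2, q2, r2⟩ := num_chain d1 p1 (q1.trans (by norm_num)) a (by norm_num [ha])
  set d2 := (d1 / 2) ^ a with hd2
  -- third coordinate
  have hs : Function.Injective fun p : W × W => (p.1 + p.2, p.2) := by
    intro p q h
    rw [Prod.mk.injEq] at h
    have e := h.1
    rw [h.2] at e
    exact Prod.ext (add_right_cancel e) h.2
  set B2 := A2.image fun p => (p.1 + p.2, p.2) with hB2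
  have hB2c : #B2 = #A2 := Finset.card_image_of_injective _ hs
  obtain ⟨Z, χ, cZ, hχ, h5⟩ := piece h2 H G F B2 (fun p hp => by
    obtain ⟨q, hq, rfl⟩ := mem_image.1 hp
    have := (hA q).1 (mem_filter.1 (mem_filter.1 hq).1).1
    rw [← this]
    have e : q.1 + q.2 + q.2 = q.1 := by rw [add_assoc, h2, add_zero]
    simp only [e]
    abel) p2 (q2.trans (by norm_num)) (by rw [hB2c]; exact h3)
  set A3 := A2.filter fun p => p.1 + p.2 ∈ Z with hA3
  have h6 : #(B2.filter fun p => p.1 ∈ Z) = #A3 := by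
    have : B2.filter (fun p => p.1 ∈ Z) = A3.image fun p => (p.1 + p.2, p.2) := by
      ext p
      simp only [hB2, hA3, mem_filter, mem_image]
      constructor
      · rintro ⟨⟨q, hq, rfl⟩, h⟩
        exact ⟨q, ⟨hq, h⟩, rfl⟩
      · rintro ⟨q, ⟨hq, h⟩, rfl⟩
        exact ⟨⟨q, hq, rfl⟩, h⟩
    rw [this, Finset.card_image_of_injective _ hs]
  rw [h6] at h5
  obtain ⟨p3, q3, r3⟩ := num_chain d2 p2 (q2.trans (by norm_num)) a (by norm_num [ha])
  set d3 := (d2 / 2) ^ a with hd3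
  obtain ⟨X', Y', Z', hb1, hb2⟩ := box_of_affine F G H A A3 hA
    (((Finset.filter_subset _ _).trans (Finset.filter_subset _ _)).trans (Finset.filter_subset _ _))
    X Y Z (fun p hp => (mem_filter.1 (mem_filter.1 (mem_filter.1 hp).1).1).2)
    (fun p hp => (mem_filter.1 (mem_filter.1 hp).1).2) (fun p hp => (mem_filter.1 hp).2)
    ψ φ χ cX cY cZ hψ hφ hχ
  refine ⟨X', Y', Z', hb1, ?_⟩
  have hb3 : (#A3 : ℝ) ^ 2 ≤ N ^ 2 * #(box X' Y' Z') := by rw [hN]; exact_mod_cast hb2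
  have h7 : (d3 * N ^ 2) ^ 2 ≤ N ^ 2 * #(box X' Y' Z') :=
    (pow_le_pow_left₀ (by positivity) h5 2).trans hb3
  have h8 : d3 ^ 2 * N ^ 2 ≤ #(box X' Y' Z') := by
    have : N ^ 2 * (d3 ^ 2 * N ^ 2) ≤ N ^ 2 * #(box X' Y' Z') := by
      calc N ^ 2 * (d3 ^ 2 * N ^ 2) = (d3 * N ^ 2) ^ 2 := by ring
        _ ≤ _ := h7
    exact le_of_mul_le_mul_left this (by positivity)
  refine le_trans (mul_le_mul_of_nonneg_right ?_ (by positivity)) h8
  exact num_final (δ / 2) (by linarith) a d1 d2 d3 hd1 hd2 hd3 r1 r2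

end Pool.Agent.Helper45.AE
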