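import Pool.Agent.Helper45.AE.Box
import Pool.Graph.R_pool_sql_team_seeded_ab47071d.LeadMoved.MP_db4732_co.ThreePartyRank

/-!
# Additive equations and corners in `(F_2^n)^2`
-/

set_option autoImplicit false

namespace Pool.Agent.Helper45.AE

open Finset
open scoped Pointwise

/-- `F_2^n` -/
abbrev V (n : ℕ) := Fin n → ZMod 2

theorem add_self_V {n : ℕ} (x : V n) : x + x = 0 := by
  funext i
  exact CharTwo.add_self_eq_zero (x i)

theorem card_V (n : ℕ) : Fintype.card (V n) = 2 ^ n := by simp [V, ZMod.card]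

/-- no nontrivial corner -/
def CornerFree {n : ℕ} (A : Finset (V n × V n)) : Prop :=
  ∀ x y z : V n, (x, y) ∈ A → (x, y + z) ∈ A → (x + z, y) ∈ A → z = 0

/-- `E` is given by an additive equation -/
def Additive {n : ℕ} (E : Finset (V n × V n)) : Prop :=
  ∃ (K : Type) (_ : AddCommGroup K) (F G H : V n → K),
    ∀ x y, (x, y) ∈ E ↔ F x + G y + H (x + y) = 0

/-- number of all triples `(x, y, z)` with `(x, y), (x, y + z), (x + z, y) ∈ A` -/
def corners {n : ℕ} (A : Finset (V n × V n)) : ℕ :=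
  #{t : V n × V n × V n | (t.1, t.2.1) ∈ A ∧ (t.1, t.2.1 + t.2.2) ∈ A ∧ (t.1 + t.2.2, t.2.1) ∈ A}

/-- corner-free boxes are small -/
theorem box_small {n : ℕ} (X Y Z : Finset (V n)) (h : CornerFree (box X Y Z)) :
    (#(box X Y Z) : ℝ) ≤ 3 * (4 : ℝ) ^ ((1 - 0.04 : ℝ) * n) := by
  classical
  have := Pool.Agent.Results.MP_db4732_co.ThreePartyRank.result n 1 1 1 (ZMod 2) (box X Y Z)
    (fun _ x y => (if x ∈ X then 1 else 0) * (if y ∈ Y then 1 else 0) * (if x + y ∈ Z then 1 else 0))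
    (fun x y z hz hc => hz (h x y z hc.1 hc.2.1 hc.2.2))
    (fun _ => ⟨fun _ _ x => if x ∈ X then 1 else 0, fun _ _ y => if y ∈ Y then 1 else 0,
      fun _ w => if w ∈ Z then 1 else 0, fun x y => by simp⟩)
    (fun x y => by
      simp only [box, mem_filter, mem_univ, true_and, exists_const]
      by_cases h1 : x ∈ X <;> by_cases h2 : y ∈ Y <;> by_cases h3 : x + y ∈ Z <;>
        simp [h1, h2, h3])
  refine this.1.trans ?_
  norm_num at this ⊢
  exact this.2

/-- the exponent -/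
def expo : ℕ := 8 * 20655 ^ 3

theorem box_of_additive {n : ℕ} (E : Finset (V n × V n)) (hE : Additive E) :
    ∃ X Y Z : Finset (V n), box X Y Z ⊆ E ∧
      ((#E : ℝ) / 4 ^ n / 2) ^ expo * 4 ^ n ≤ #(box X Y Z) := by
  classical
  rcases E.eq_empty_or_nonempty with h0 | hne
  · refine ⟨∅, ∅, ∅, fun p hp => ?_, ?_⟩
    · simp [box] at hp
    · rw [h0, Finset.card_empty, Nat.cast_zero, zero_div, zero_div, zero_pow (by norm_num [expo]),
        zero_mul]
      exact Nat.cast_nonneg _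
  obtain ⟨K, _, F, G, H, hF⟩ := hE
  have h4 : ((Fintype.card (V n) : ℕ) : ℝ) ^ 2 = 4 ^ n := by
    rw [card_V]; push_cast; rw [← pow_mul, mul_comm, pow_mul]; norm_num
  have hE0 : (0 : ℝ) < #E := by exact_mod_cast hne.card_pos
  have hE1 : (#E : ℝ) ≤ 4 ^ n := by
    rw [← h4]
    have : #E ≤ Fintype.card (V n) ^ 2 := by
      rw [sq, ← Fintype.card_prod]; exact Finset.card_le_univ _
    exact_mod_cast this
  have := exists_box (W := V n) add_self_V F G H E (fun p => hF p.1 p.2) (δ := (#E : ℝ) / 4 ^ n)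
    (by positivity) (by rw [div_le_one (by positivity)]; exact hE1)
    (by rw [h4, div_mul_cancel₀ _ (by positivity)])
  rw [h4] at this
  exact this

/-- the saving -/
noncomputable def sav : ℝ := 0.04 / expo

theorem additive_small {n : ℕ} (E : Finset (V n × V n)) (hE : Additive E) (hc : CornerFree E) :
    (#E : ℝ) ≤ 6 * (4 : ℝ) ^ ((1 - sav) * n) := by
  obtain ⟨X, Y, Z, hb, h1⟩ := box_of_additive E hE
  have hcb : CornerFree (box X Y Z) := fun x y z h2 h3 h4 => hc x y z (hb h2) (hb h3) (hb h4)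
  have h2 := h1.trans (box_small X Y Z hcb)
  have hN : (0 : ℝ) < 4 ^ n := by positivity
  have hexp : (0 : ℝ) < expo := by norm_num [expo]
  have hexp' : expo ≠ 0 := by norm_num [expo]
  -- take roots
  have h3 : ((#E : ℝ) / 4 ^ n / 2) ^ expo ≤ 3 * (4 : ℝ) ^ (-0.04 * (n : ℝ)) := by
    have e : (4 : ℝ) ^ ((1 - 0.04 : ℝ) * n) = (4 : ℝ) ^ (-0.04 * (n : ℝ)) * 4 ^ n := by
      rw [← Real.rpow_natCast 4 n, ← Real.rpow_add (by norm_num)]
      congr 1; ring
    rw [e, ← mul_assoc] at h2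
    exact le_of_mul_le_mul_right h2 hN
  have h4 : ((3 : ℝ) * (4 : ℝ) ^ (-sav * (n : ℝ))) ^ expo = 3 ^ expo * (4 : ℝ) ^ (-0.04 * (n : ℝ)) := by
    rw [mul_pow, ← Real.rpow_natCast ((4 : ℝ) ^ (-sav * (n : ℝ))), ← Real.rpow_mul (by norm_num)]
    congr 2
    unfold sav
    field_simp
  have h5 : ((#E : ℝ) / 4 ^ n / 2) ^ expo ≤ ((3 : ℝ) * (4 : ℝ) ^ (-sav * (n : ℝ))) ^ expo := by
    rw [h4]
    refine h3.trans (mul_le_mul_of_nonneg_right ?_ (by positivity))
    calc (3 : ℝ) = 3 ^ 1 := (pow_one _).symm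
      _ ≤ 3 ^ expo := pow_le_pow_right₀ (by norm_num) (Nat.one_le_iff_ne_zero.2 hexp')
  have h6 : (#E : ℝ) / 4 ^ n / 2 ≤ 3 * (4 : ℝ) ^ (-sav * (n : ℝ)) :=
    le_of_pow_le_pow_left₀ hexp' (by positivity) h5
  have h7 : (#E : ℝ) ≤ 6 * ((4 : ℝ) ^ (-sav * (n : ℝ)) * 4 ^ n) := by
    rw [div_div, div_le_iff₀ (by positivity)] at h6
    linarith
  refine h7.trans (le_of_eq ?_)
  rw [← Real.rpow_natCast 4 n, ← Real.rpow_add (by norm_num)]
  congr 2; ring

end Pool.Agent.Helper45.AE
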