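import Mathlib

/-!
# Additive equations: the additive energy of the graphs
-/

set_option autoImplicit false

namespace Pool.Agent.Helper45.AE

open Finset

theorem coinc_eq {α β γ : Type*} [DecidableEq γ] (S : Finset α) (T : Finset β) (f : α → γ)
    (g : β → γ) : #{p ∈ S ×ˢ T | f p.1 = g p.2} =
      ∑ k ∈ S.image f, #{x ∈ S | f x = k} * #{y ∈ T | g y = k} := by
  classical
  rw [Finset.card_eq_sum_card_fiberwise (f := fun p : α × β => f p.1) (t := S.image f)]
  · refine Finset.sum_congr rfl fun k _ => ?_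
    rw [← Finset.card_product]
    congr 1
    ext p
    simp only [mem_filter, mem_product]
    constructor
    · rintro ⟨⟨⟨h1, h2⟩, h3⟩, h4⟩
      exact ⟨⟨h1, h4⟩, h2, h3 ▸ h4⟩
    · rintro ⟨⟨h1, h4⟩, h2, h3⟩
      exact ⟨⟨⟨h1, h2⟩, h4.trans h3.symm⟩, h4⟩
  · intro p hp
    have hp' := mem_filter.1 (mem_coe.1 hp)
    exact mem_coe.2 (mem_image.2 ⟨p.1, (mem_product.1 hp'.1).1, rfl⟩)

/-- Cauchy-Schwarz for the number of coincidences of two maps -/
theorem coinc_sq {α β γ : Type*} [DecidableEq γ] (S : Finset α) (T : Finset β) (f : α → γ)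
    (g : β → γ) :
    #{p ∈ S ×ˢ T | f p.1 = g p.2} ^ 2 ≤
      #{p ∈ S ×ˢ S | f p.1 = f p.2} * #{p ∈ T ×ˢ T | g p.1 = g p.2} := by
  classical
  rw [coinc_eq S T f g, coinc_eq S S f f, coinc_eq T T g g]
  have h2 : ∑ k ∈ S.image f, #{y ∈ T | g y = k} * #{y ∈ T | g y = k} ≤
      ∑ k ∈ T.image g, #{y ∈ T | g y = k} * #{y ∈ T | g y = k} := by
    have h3 : ∑ k ∈ S.image f, #{y ∈ T | g y = k} * #{y ∈ T | g y = k} =
        ∑ k ∈ S.image f ∩ T.image g, #{y ∈ T | g y = k} * #{y ∈ T | g y = k} := by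
      refine (Finset.sum_subset Finset.inter_subset_left fun k hk hk' => ?_).symm
      have : #{y ∈ T | g y = k} = 0 := by
        rw [Finset.card_eq_zero, Finset.filter_eq_empty_iff]
        intro y hy he
        exact hk' (mem_inter.2 ⟨hk, mem_image.2 ⟨y, hy, he⟩⟩)
      rw [this, zero_mul]
    rw [h3]
    exact Finset.sum_le_sum_of_subset Finset.inter_subset_right
  calc (∑ k ∈ S.image f, #{x ∈ S | f x = k} * #{y ∈ T | g y = k}) ^ 2
      ≤ (∑ k ∈ S.image f, #{x ∈ S | f x = k} ^ 2) *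
        ∑ k ∈ S.image f, #{y ∈ T | g y = k} ^ 2 := Finset.sum_mul_sq_le_sq_mul_sq _ _ _
    _ ≤ _ := by
      simp only [sq]
      exact Nat.mul_le_mul_left _ h2

variable {W : Type*} [AddCommGroup W] [Fintype W] [DecidableEq W]

/-- the graph of `F` over `X` -/
noncomputable def graph {K : Type*} [DecidableEq K] (F : W → K) (X : Finset W) : Finset (W × K) :=
  X.image fun x => (x, F x)

omit [AddCommGroup W] [Fintype W] in
theorem card_graph {K : Type*} [DecidableEq K] (F : W → K) (X : Finset W) :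
    #(graph F X) = #X :=
  Finset.card_image_of_injective _ fun _ _ h => (Prod.mk.inj h).1

/-- If `F x + G y + H (x + y) = 0` on `A`, and `X` contains the first coordinates of the points of
`A`, then the graph of `F` over `X` has a large additive energy. -/
theorem energy {K : Type*} [AddCommGroup K] [DecidableEq K] (F G H : W → K)
    (A : Finset (W × W)) (X : Finset W) (hX : ∀ p ∈ A, p.1 ∈ X)
    (hA : ∀ p ∈ A, F p.1 + G p.2 + H (p.1 + p.2) = 0) :
    #A ^ 4 ≤ Fintype.card W ^ 5 * (graph F X).addEnergy (graph F X) := by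
  classical
  -- pairs of points of `A` on the same diagonal
  set P := (A ×ˢ A).filter fun q => q.1.1 + q.1.2 = q.2.1 + q.2.2 with hP
  have h1 : #A ^ 2 ≤ #P * Fintype.card W := by
    have h := coinc_sq A (univ : Finset W) (fun p => p.1 + p.2) id
    have e1 : #{p ∈ A ×ˢ (univ : Finset W) | p.1.1 + p.1.2 = id p.2} = #A := by
      refine Finset.card_bij (fun p _ => p.1) (fun p hp => (mem_product.1 (mem_filter.1 hp).1).1)
        (fun p hp q hq h => ?_) (fun a ha => ⟨(a, a.1 + a.2), ?_, rfl⟩)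
      · have hp' := (mem_filter.1 hp).2
        have hq' := (mem_filter.1 hq).2
        refine Prod.ext h ?_
        simp only [id] at hp' hq'
        rw [← hp', ← hq', h]
      · simp [ha]
    have e2 : #{p ∈ (univ : Finset W) ×ˢ (univ : Finset W) | id p.1 = id p.2} = Fintype.card W := by
      rw [← Finset.card_univ]
      refine Finset.card_bij (fun p _ => p.1) (fun p hp => mem_univ _)
        (fun p hp q hq h => ?_) (fun a ha => ⟨(a, a), ?_, rfl⟩)
      · have hp' := (mem_filter.1 hp).2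
        have hq' := (mem_filter.1 hq).2
        refine Prod.ext h ?_
        simp only [id] at hp' hq'
        rw [← hp', ← hq', h]
      · simp
    rw [e1, e2] at h
    exact h
  -- they are coincidences of the differences
  set S := X ×ˢ X
  set T := (univ : Finset W) ×ˢ (univ : Finset W)
  set f : W × W → W × K := fun p => (p.2 - p.1, F p.2 - F p.1) with hf
  set g : W × W → W × K := fun p => (p.1 - p.2, G p.1 - G p.2) with hg
  have h2 : #P ≤ #{p ∈ S ×ˢ T | f p.1 = g p.2} := by
    refine Finset.card_le_card_of_injOn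
      (fun q => ((q.1.1, q.2.1), (q.1.2, q.2.2))) ?_ ?_
    · intro q hq
      rw [mem_coe, hP, mem_filter, mem_product] at hq
      obtain ⟨⟨ha, hb⟩, hab⟩ := hq
      rw [mem_coe, mem_filter]
      refine ⟨?_, ?_⟩
      · simp only [S, T, mem_product, mem_univ, and_true]
        exact ⟨hX _ ha, hX _ hb⟩
      · have e1 := hA _ ha
        have e2 := hA _ hb
        rw [hab] at e1
        simp only [hf, hg, Prod.mk.injEq]
        constructor
        · have : q.1.2 = q.2.1 + q.2.2 - q.1.1 := by rw [← hab]; abel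
          rw [this]; abel
        · have e3 : F q.1.1 + G q.1.2 = F q.2.1 + G q.2.2 := by
            have : F q.1.1 + G q.1.2 + H (q.2.1 + q.2.2) = F q.2.1 + G q.2.2 + H (q.2.1 + q.2.2) := by
              rw [e1, e2]
            exact add_right_cancel this
          have : F q.2.1 = F q.1.1 + G q.1.2 - G q.2.2 := by rw [e3]; abel
          rw [this]; abel
    · intro q _ q' _ h
      simp only [Prod.mk.injEq] at h
      exact Prod.ext (Prod.ext h.1.1 h.2.1) (Prod.ext h.1.2 h.2.2)
  have h3 := coinc_sq S T f g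
  have h4 : #{p ∈ S ×ˢ S | f p.1 = f p.2} ≤ (graph F X).addEnergy (graph F X) := by
    rw [Finset.addEnergy]
    refine Finset.card_le_card_of_injOn
      (fun q => (((q.1.1, F q.1.1), (q.1.2, F q.1.2)), ((q.2.2, F q.2.2), (q.2.1, F q.2.1)))) ?_ ?_
    · intro q hq
      rw [mem_coe, mem_filter] at hq
      simp only [S, mem_product] at hq
      obtain ⟨⟨⟨ha, hb⟩, hc, hd⟩, he⟩ := hq
      simp only [hf, Prod.mk.injEq] at he
      rw [mem_coe, mem_filter]
      simp only [mem_product, graph, mem_image, Prod.mk.injEq]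
      refine ⟨⟨⟨⟨_, ha, rfl, rfl⟩, _, hb, rfl, rfl⟩, ⟨_, hd, rfl, rfl⟩, _, hc, rfl, rfl⟩, ?_⟩
      simp only [Prod.mk_add_mk, Prod.mk.injEq]
      constructor
      · have : q.1.2 = q.2.2 - q.2.1 + q.1.1 := by rw [← he.1]; abel
        rw [this]; abel
      · have : F q.1.2 = F q.2.2 - F q.2.1 + F q.1.1 := by rw [← he.2]; abel
        rw [this]; abel
    · intro q _ q' _ h
      simp only [Prod.mk.injEq] at h
      exact Prod.ext (Prod.ext h.1.1.1 h.1.2.1) (Prod.ext h.2.2.1 h.2.1.1)
  have h5 : #{p ∈ T ×ˢ T | g p.1 = g p.2} ≤ Fintype.card W ^ 3 := by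
    have : Fintype.card W ^ 3 = #(T ×ˢ (univ : Finset W)) := by
      simp only [T, card_product, card_univ]; ring
    rw [this]
    refine Finset.card_le_card_of_injOn (fun q => (q.1, q.2.1)) ?_ ?_
    · intro q _
      simp [T]
    · intro q hq q' hq' h
      rw [mem_coe, mem_filter] at hq hq'
      simp only [Prod.mk.injEq] at h
      have e1 := (Prod.mk.inj hq.2).1
      have e2 := (Prod.mk.inj hq'.2).1
      refine Prod.ext h.1 (Prod.ext h.2 ?_)
      have e3 : q.2.2 = q.2.1 - (q.1.1 - q.1.2) := by rw [e1]; abel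
      have e4 : q'.2.2 = q'.2.1 - (q'.1.1 - q'.1.2) := by rw [e2]; abel
      rw [e3, e4, h.1, h.2]
  calc #A ^ 4 = (#A ^ 2) ^ 2 := by ring
    _ ≤ (#P * Fintype.card W) ^ 2 := Nat.pow_le_pow_left h1 2
    _ = #P ^ 2 * Fintype.card W ^ 2 := by ring
    _ ≤ #{p ∈ S ×ˢ T | f p.1 = g p.2} ^ 2 * Fintype.card W ^ 2 :=
        Nat.mul_le_mul_right _ (Nat.pow_le_pow_left h2 2)
    _ ≤ (#{p ∈ S ×ˢ S | f p.1 = f p.2} * #{p ∈ T ×ˢ T | g p.1 = g p.2}) * Fintype.card W ^ 2 :=
        Nat.mul_le_mul_right _ h3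
    _ ≤ ((graph F X).addEnergy (graph F X) * Fintype.card W ^ 3) * Fintype.card W ^ 2 :=
        Nat.mul_le_mul_right _ (Nat.mul_le_mul h4 h5)
    _ = _ := by ring

end Pool.Agent.Helper45.AE
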