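import Pool.Agent.Helper45.AE.Main

/-!
# Corner-free sets obtained from lifts to abelian groups
-/

set_option autoImplicit false

namespace Pool.Agent.Helper45.AE

open Finset

variable {n : ℕ}

attribute [local irreducible] expo

section

variable {B : Type} [AddCommGroup B]

/-- the partial section number `i` of `P` -/
noncomputable def sect (π : B →+ V n) (P : Finset B) (i : ℕ) (x : V n) : Option B := by
  classical
  exact if h : i < #(P.filter fun p => π p = x) then
    some ((P.filter fun p => π p = x).equivFin.symm ⟨i, h⟩ : B) else none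

theorem sect_some {π : B →+ V n} {P : Finset B} {i : ℕ} {x : V n} {p : B}
    (h : sect π P i x = some p) : p ∈ P ∧ π p = x := by
  classical
  unfold sect at h
  split_ifs at h with h1
  simp only [Option.some.injEq] at h
  have := ((P.filter fun p => π p = x).equivFin.symm ⟨i, h1⟩).2
  rw [h] at this
  exact mem_filter.1 this

theorem exists_sect {π : B →+ V n} {P : Finset B} {p : B} (hp : p ∈ P) :
    ∃ i < #(P.filter fun q => π q = π p), sect π P i (π p) = some p := by
  classical
  have hp' : p ∈ P.filter fun q => π q = π p := mem_filter.2 ⟨hp, rfl⟩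
  refine ⟨((P.filter fun q => π q = π p).equivFin ⟨p, hp'⟩).1,
    ((P.filter fun q => π q = π p).equivFin ⟨p, hp'⟩).2, ?_⟩
  unfold sect
  rw [dif_pos ((P.filter fun q => π q = π p).equivFin ⟨p, hp'⟩).2]
  simp

/-- the points where the sections are defined and add up -/
noncomputable def piecewise (σ τ ρ : V n → Option B) : Finset (V n × V n) := by
  classical
  exact univ.filter fun p => ∃ a b c, σ p.1 = some a ∧ τ p.2 = some b ∧ ρ (p.1 + p.2) = some c ∧
    a + b = c

theorem additive_piecewise (σ τ ρ : V n → Option B) : Additive (piecewise σ τ ρ) := by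
  classical
  refine ⟨B × ℤ × ℤ × ℤ, inferInstance,
    fun x => (σ x).elim (0, 1, 0, 0) fun a => (a, 0, 0, 0),
    fun y => (τ y).elim (0, 0, 1, 0) fun b => (b, 0, 0, 0),
    fun w => (ρ w).elim (0, 0, 0, 1) fun c => (-c, 0, 0, 0), fun x y => ?_⟩
  simp only [piecewise, mem_filter, mem_univ, true_and]
  rcases h1 : σ x with _ | a
  · rcases h2 : τ y with _ | b <;> rcases h3 : ρ (x + y) with _ | c <;> simp
  · rcases h2 : τ y with _ | b
    · rcases h3 : ρ (x + y) with _ | c <;> simp
    · rcases h3 : ρ (x + y) with _ | c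
      · simp
      · simp only [Option.some.injEq, Option.elim_some, Prod.mk_add_mk, add_zero, Prod.mk_eq_zero,
          and_true]
        constructor
        · rintro ⟨a', b', c', rfl, rfl, rfl, h⟩
          rw [h]; abel
        · intro h
          refine ⟨a, b, c, rfl, rfl, rfl, ?_⟩
          rw [← sub_eq_zero, sub_eq_add_neg]
          exact h

/-- few elements have a large fibre -/
theorem few_large (π : B →+ V n) (P : Finset B) (m : ℕ) :
    #(univ.filter fun x : V n => m < #(P.filter fun p => π p = x)) * m ≤ #P := by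
  classical
  have h1 : #P = ∑ x : V n, #(P.filter fun p => π p = x) :=
    Finset.card_eq_sum_card_fiberwise fun _ _ => mem_coe.2 (mem_univ _)
  rw [h1]
  calc #(univ.filter fun x : V n => m < #(P.filter fun p => π p = x)) * m
      = ∑ _x ∈ univ.filter (fun x : V n => m < #(P.filter fun p => π p = x)), m := by
        rw [Finset.sum_const, smul_eq_mul]
    _ ≤ ∑ x ∈ univ.filter (fun x : V n => m < #(P.filter fun p => π p = x)),
          #(P.filter fun p => π p = x) :=
        Finset.sum_le_sum fun x hx => (mem_filter.1 hx).2.le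
    _ ≤ _ := Finset.sum_le_sum_of_subset (Finset.filter_subset _ _)

/-- **Lifts.** -/
theorem lift_bound (π : B →+ V n) (P Q R : Finset B) (A : Finset (V n × V n)) (M : ℝ) (hM : 1 ≤ M)
    (hP : (#P : ℝ) ≤ M * 2 ^ n) (hQ : (#Q : ℝ) ≤ M * 2 ^ n) (hR : (#R : ℝ) ≤ M * 2 ^ n)
    (hA : ∀ x y, (x, y) ∈ A ↔ ∃ p ∈ P, ∃ q ∈ Q, p + q ∈ R ∧ π p = x ∧ π q = y)
    (hc : CornerFree A) : (#A : ℝ) ≤ 51 * M * (4 : ℝ) ^ ((1 - sav / 4) * n) := by
  classical
  set t : ℝ := (4 : ℝ) ^ (sav * n / 4) with ht
  have ht1 : 1 ≤ t := by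
    rw [ht]
    refine Real.one_le_rpow (by norm_num) ?_
    have := sav_pos
    positivity
  set m : ℕ := ⌈t⌉₊ with hm
  have hm1 : t ≤ m := Nat.le_ceil t
  have hm2 : (m : ℝ) ≤ 2 * t := by
    have := (Nat.ceil_lt_add_one (by linarith : 0 ≤ t)).le
    linarith
  have hm0 : (0 : ℝ) < m := by linarith
  -- the bad lines
  have key : ∀ (S : Finset B), (#S : ℝ) ≤ M * 2 ^ n →
      (#(univ.filter fun x : V n => m < #(S.filter fun p => π p = x)) : ℝ) * 2 ^ n ≤
        M * (4 ^ n / t) := by
    intro S hS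
    have h1 : ((#(univ.filter fun x : V n => m < #(S.filter fun p => π p = x)) : ℕ) : ℝ) * m ≤ #S := by
      exact_mod_cast few_large π S m
    have h2 : (#(univ.filter fun x : V n => m < #(S.filter fun p => π p = x)) : ℝ) * t ≤ M * 2 ^ n := by
      calc (#(univ.filter fun x : V n => m < #(S.filter fun p => π p = x)) : ℝ) * t
          ≤ (#(univ.filter fun x : V n => m < #(S.filter fun p => π p = x)) : ℝ) * m :=
            mul_le_mul_of_nonneg_left hm1 (Nat.cast_nonneg _)
        _ ≤ _ := h1.trans hS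
    have e4 : (4 : ℝ) ^ n = 2 ^ n * 2 ^ n := by rw [← mul_pow]; norm_num
    rw [← mul_div_assoc, le_div_iff₀ (by linarith), e4]
    have h2n : (0 : ℝ) < 2 ^ n := by positivity
    nlinarith
  set XP := univ.filter fun x : V n => m < #(P.filter fun p => π p = x) with hXP
  set XQ := univ.filter fun x : V n => m < #(Q.filter fun p => π p = x) with hXQ
  set XR := univ.filter fun x : V n => m < #(R.filter fun p => π p = x) with hXR
  -- the covering
  have hcov : A ⊆ ((XP ×ˢ (univ : Finset (V n))) ∪ ((univ : Finset (V n)) ×ˢ XQ)) ∪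
      ((((univ : Finset (V n)) ×ˢ XR).image fun q => (q.1, q.2 + q.1)) ∪
        ((range m ×ˢ range m ×ˢ range m).biUnion fun i =>
          piecewise (sect π P i.1) (sect π Q i.2.1) (sect π R i.2.2))) := by
    intro a ha
    obtain ⟨p, hp, q, hq, hr, h1, h2⟩ := (hA a.1 a.2).1 ha
    by_cases g1 : a.1 ∈ XP
    · exact mem_union_left _ (mem_union_left _ (mem_product.2 ⟨g1, mem_univ _⟩))
    by_cases g2 : a.2 ∈ XQ
    · exact mem_union_left _ (mem_union_right _ (mem_product.2 ⟨mem_univ _, g2⟩))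
    by_cases g3 : a.1 + a.2 ∈ XR
    · refine mem_union_right _ (mem_union_left _ (mem_image.2 ⟨(a.1, a.1 + a.2),
        mem_product.2 ⟨mem_univ _, g3⟩, ?_⟩))
      refine Prod.ext rfl ?_
      show a.1 + a.2 + a.1 = a.2
      have := add_self_V a.1
      calc a.1 + a.2 + a.1 = (a.1 + a.1) + a.2 := by abel
        _ = a.2 := by rw [this, zero_add]
    refine mem_union_right _ (mem_union_right _ ?_)
    obtain ⟨i, hi, hi'⟩ := exists_sect (π := π) hp
    obtain ⟨j, hj, hj'⟩ := exists_sect (π := π) hq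
    obtain ⟨k, hk, hk'⟩ := exists_sect (π := π) hr
    rw [map_add] at hk hk'
    rw [h1] at hi hi' hk hk'
    rw [h2] at hj hj' hk hk'
    simp only [hXP, hXQ, hXR, mem_filter, mem_univ, true_and, not_lt] at g1 g2 g3
    refine mem_biUnion.2 ⟨(i, j, k), ?_, ?_⟩
    · simp only [mem_product, mem_range]
      exact ⟨hi.trans_le g1, hj.trans_le g2, hk.trans_le g3⟩
    · simp only [piecewise, mem_filter, mem_univ, true_and]
      exact ⟨p, q, p + q, hi', hj', hk', rfl⟩
  have hsub : ∀ i : ℕ × ℕ × ℕ, piecewise (sect π P i.1) (sect π Q i.2.1) (sect π R i.2.2) ⊆ A := by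
    intro i a ha
    simp only [piecewise, mem_filter, mem_univ, true_and] at ha
    obtain ⟨p, q, r, h1, h2, h3, h4⟩ := ha
    refine (hA a.1 a.2).2 ⟨p, (sect_some h1).1, q, (sect_some h2).1, ?_, (sect_some h1).2,
      (sect_some h2).2⟩
    rw [h4]
    exact (sect_some h3).1
  have hpiece : ∀ i : ℕ × ℕ × ℕ, (#(piecewise (sect π P i.1) (sect π Q i.2.1) (sect π R i.2.2)) : ℝ) ≤
      6 * (4 : ℝ) ^ ((1 - sav) * n) := fun i =>
    additive_small _ (additive_piecewise _ _ _) fun x y z h1 h2 h3 =>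
      hc x y z (hsub i h1) (hsub i h2) (hsub i h3)
  have hsum : (#A : ℝ) ≤ (#XP * 2 ^ n + 2 ^ n * #XQ) + (2 ^ n * #XR +
      m ^ 3 * (6 * (4 : ℝ) ^ ((1 - sav) * n))) := by
    have h1 := Finset.card_le_card hcov
    have h2 := h1.trans (Finset.card_union_le _ _)
    have h3 := Finset.card_union_le (XP ×ˢ (univ : Finset (V n))) ((univ : Finset (V n)) ×ˢ XQ)
    have h4 := Finset.card_union_le (((univ : Finset (V n)) ×ˢ XR).image fun q => (q.1, q.2 + q.1))
      ((range m ×ˢ range m ×ˢ range m).biUnion fun i =>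
          piecewise (sect π P i.1) (sect π Q i.2.1) (sect π R i.2.2))
    have h5 : #(((univ : Finset (V n)) ×ˢ XR).image fun q => (q.1, q.2 + q.1)) ≤ 2 ^ n * #XR := by
      refine Finset.card_image_le.trans (le_of_eq ?_)
      rw [Finset.card_product, Finset.card_univ, card_V]
    rw [Finset.card_product, Finset.card_product, Finset.card_univ, card_V] at h3
    have h6 : (#((range m ×ˢ range m ×ˢ range m).biUnion fun i =>
        piecewise (sect π P i.1) (sect π Q i.2.1) (sect π R i.2.2)) : ℝ) ≤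
          m ^ 3 * (6 * (4 : ℝ) ^ ((1 - sav) * n)) := by
      have h7 : (#((range m ×ˢ range m ×ˢ range m).biUnion fun i =>
        piecewise (sect π P i.1) (sect π Q i.2.1) (sect π R i.2.2)) : ℝ) ≤
          ∑ i ∈ range m ×ˢ range m ×ˢ range m,
            (#(piecewise (sect π P i.1) (sect π Q i.2.1) (sect π R i.2.2)) : ℝ) := by
        exact_mod_cast Finset.card_biUnion_le
      refine h7.trans ((Finset.sum_le_sum fun i _ => hpiece i).trans (le_of_eq ?_))
      rw [Finset.sum_const, Finset.card_product, Finset.card_product, Finset.card_range,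
        nsmul_eq_mul]
      push_cast
      ring
    have h8 : #A ≤ (#XP * 2 ^ n + 2 ^ n * #XQ) + (2 ^ n * #XR +
        #((range m ×ˢ range m ×ˢ range m).biUnion fun i =>
          piecewise (sect π P i.1) (sect π Q i.2.1) (sect π R i.2.2))) := by omega
    have h9 : (#A : ℝ) ≤ (#XP * 2 ^ n + 2 ^ n * #XQ) + (2 ^ n * #XR +
        (#((range m ×ˢ range m ×ˢ range m).biUnion fun i =>
          piecewise (sect π P i.1) (sect π Q i.2.1) (sect π R i.2.2)) : ℝ)) := by
      exact_mod_cast h8
    linarith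
  have k1 := key P hP
  have k2 := key Q hQ
  have k3 := key R hR
  -- the numbers
  have e1 : (4 : ℝ) ^ n / t = (4 : ℝ) ^ ((1 - sav / 4) * n) := by
    rw [ht, ← Real.rpow_natCast 4 n, ← Real.rpow_sub (by norm_num)]
    congr 1; ring
  have e2 : t ^ 3 * (4 : ℝ) ^ ((1 - sav) * n) = (4 : ℝ) ^ ((1 - sav / 4) * n) := by
    rw [ht, ← Real.rpow_natCast _ 3, ← Real.rpow_mul (by norm_num), ← Real.rpow_add (by norm_num)]
    congr 1; push_cast; ring
  have h3 : (m : ℝ) ^ 3 ≤ 8 * t ^ 3 := by
    calc (m : ℝ) ^ 3 ≤ (2 * t) ^ 3 := pow_le_pow_left₀ hm0.le hm2 3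
      _ = 8 * t ^ 3 := by ring
  have h4 : (m : ℝ) ^ 3 * (6 * (4 : ℝ) ^ ((1 - sav) * n)) ≤ 48 * (4 : ℝ) ^ ((1 - sav / 4) * n) := by
    calc (m : ℝ) ^ 3 * (6 * (4 : ℝ) ^ ((1 - sav) * n))
        ≤ (8 * t ^ 3) * (6 * (4 : ℝ) ^ ((1 - sav) * n)) :=
          mul_le_mul_of_nonneg_right h3 (by positivity)
      _ = 48 * (t ^ 3 * (4 : ℝ) ^ ((1 - sav) * n)) := by ring
      _ = _ := by rw [e2]
  rw [e1] at k1 k2 k3
  have hpos : (0 : ℝ) < (4 : ℝ) ^ ((1 - sav / 4) * n) := by positivity
  have h5 : 48 * (4 : ℝ) ^ ((1 - sav / 4) * n) ≤ 48 * (M * (4 : ℝ) ^ ((1 - sav / 4) * n)) := by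
    have := mul_le_mul_of_nonneg_right hM hpos.le
    linarith
  linarith

end

end Pool.Agent.Helper45.AE
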