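import Pool.Agent.Helper45.AE.Lift

/-!
# Sets obtained from lifts to abelian groups contain additive sets
-/

set_option autoImplicit false

namespace Pool.Agent.Helper45.AE

open Finset

variable {n : ℕ}

attribute [local irreducible] expo

theorem num_lift (δ M t m : ℝ) (hδ : 0 < δ) (hδ1 : δ ≤ 1) (hM : 1 ≤ M) (ht : t = 6 * M / δ)
    (hm : m ≤ 2 * t) (hm0 : 0 < m) : (δ / (2 * M)) ^ 13 ≤ δ / 2 / m ^ 3 := by
  have hM0 : 0 < M := by linarith
  have h1 : m ≤ 12 * M / δ := by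
    refine hm.trans (le_of_eq ?_)
    rw [ht]; ring
  set η := δ / (2 * M) with hη
  have hη0 : 0 < η := by positivity
  have hη1 : η ≤ 1 / 2 := by
    rw [hη, div_le_div_iff₀ (by positivity) (by norm_num)]
    nlinarith
  have h2 : 12 * M / δ = 6 / η := by
    rw [hη]; field_simp; norm_num
  have h3 : m ≤ 6 / η := by rw [← h2]; exact h1
  have h4 : η ^ 4 ≤ η / 6 := by
    have : η ^ 3 ≤ 1 / 6 := by
      calc η ^ 3 ≤ (1 / 2) ^ 3 := pow_le_pow_left₀ hη0.le hη1 3
        _ ≤ 1 / 6 := by norm_num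
    calc η ^ 4 = η * η ^ 3 := by ring
      _ ≤ η * (1 / 6) := mul_le_mul_of_nonneg_left this hη0.le
      _ = η / 6 := by ring
  have h5 : (η ^ 4) ^ 3 ≤ 1 / m ^ 3 := by
    have h6 : η ^ 4 ≤ 1 / m := by
      refine h4.trans ?_
      rw [le_div_iff₀ hm0]
      rw [le_div_iff₀ hη0] at h3
      linarith
    calc (η ^ 4) ^ 3 ≤ (1 / m) ^ 3 := pow_le_pow_left₀ (by positivity) h6 3
      _ = 1 / m ^ 3 := by rw [div_pow, one_pow]
  have h7 : η ≤ δ / 2 := by
    rw [hη, div_le_div_iff₀ (by positivity) (by norm_num)]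
    nlinarith
  calc η ^ 13 = η * (η ^ 4) ^ 3 := by ring
    _ ≤ δ / 2 * (1 / m ^ 3) := mul_le_mul h7 h5 (by positivity) (by positivity)
    _ = δ / 2 / m ^ 3 := by ring

/-- **Lifts.** -/
theorem additive_in_lift {B : Type} [AddCommGroup B] (π : B →+ V n) (P Q R : Finset B)
    (A : Finset (V n × V n)) (M : ℝ) (hM : 1 ≤ M)
    (hP : (#P : ℝ) ≤ M * 2 ^ n) (hQ : (#Q : ℝ) ≤ M * 2 ^ n) (hR : (#R : ℝ) ≤ M * 2 ^ n)
    (hA : ∀ x y, (x, y) ∈ A ↔ ∃ p ∈ P, ∃ q ∈ Q, p + q ∈ R ∧ π p = x ∧ π q = y) :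
    ∃ E : Finset (V n × V n), Additive E ∧ E ⊆ A ∧ (density A / (2 * M)) ^ 13 ≤ density E := by
  classical
  rcases A.eq_empty_or_nonempty with h0 | hne
  · refine ⟨∅, ⟨ℤ, inferInstance, fun _ => 1, fun _ => 0, fun _ => 0, fun x y => ?_⟩,
      Finset.empty_subset _, ?_⟩
    · simp
    · rw [h0]
      simp [density]
  have hM0 : 0 < M := by linarith
  have hA0 : (0 : ℝ) < #A := by exact_mod_cast hne.card_pos
  have h4n : (0 : ℝ) < 4 ^ n := by positivity
  set δ := density A with hδ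
  have hAδ : (#A : ℝ) = δ * 4 ^ n := by rw [hδ]; unfold density; field_simp
  have hδ0 : 0 < δ := by rw [hδ]; unfold density; positivity
  have hδ1 : δ ≤ 1 := density_le A
  set t : ℝ := 6 * M / δ with ht
  have ht1 : 1 ≤ t := by
    rw [ht, le_div_iff₀ hδ0]
    linarith
  set m : ℕ := ⌈t⌉₊ with hm
  have hm1 : t ≤ m := Nat.le_ceil t
  have hm2 : (m : ℝ) ≤ 2 * t := by
    have := (Nat.ceil_lt_add_one (by linarith : 0 ≤ t)).le
    linarith
  have hm0 : (0 : ℝ) < m := by linarith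
  -- the bad lines
  have key : ∀ (S : Finset B), (#S : ℝ) ≤ M * 2 ^ n →
      (#(univ.filter fun x : V n => m < #(S.filter fun p => π p = x)) : ℝ) * 2 ^ n ≤
        δ / 6 * 4 ^ n := by
    intro S hS
    have h1 : ((#(univ.filter fun x : V n => m < #(S.filter fun p => π p = x)) : ℕ) : ℝ) * m ≤ #S := by
      exact_mod_cast few_large π S m
    have h2 : (#(univ.filter fun x : V n => m < #(S.filter fun p => π p = x)) : ℝ) * t ≤ M * 2 ^ n := by
      calc (#(univ.filter fun x : V n => m < #(S.filter fun p => π p = x)) : ℝ) * t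
          ≤ (#(univ.filter fun x : V n => m < #(S.filter fun p => π p = x)) : ℝ) * m :=
            mul_le_mul_of_nonneg_left hm1 (Nat.cast_nonneg _)
        _ ≤ _ := h1.trans hS
    have e4 : (4 : ℝ) ^ n = 2 ^ n * 2 ^ n := by rw [← mul_pow]; norm_num
    have h2n : (0 : ℝ) < 2 ^ n := by positivity
    set b : ℝ := (#(univ.filter fun x : V n => m < #(S.filter fun p => π p = x)) : ℝ) with hb
    have h3 : b ≤ δ / 6 * 2 ^ n := by
      have h5 : b * (6 * M) ≤ M * 2 ^ n * δ := by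
        have := mul_le_mul_of_nonneg_right h2 hδ0.le
        rw [ht] at this
        have e : b * (6 * M / δ) * δ = b * (6 * M) := by field_simp
        rw [e] at this
        exact this
      have h6 : b * 6 ≤ 2 ^ n * δ := by
        refine le_of_mul_le_mul_right ?_ hM0
        calc b * 6 * M = b * (6 * M) := by ring
          _ ≤ _ := h5
          _ = 2 ^ n * δ * M := by ring
      linarith
    rw [e4]
    calc b * 2 ^ n ≤ δ / 6 * 2 ^ n * 2 ^ n := mul_le_mul_of_nonneg_right h3 h2n.le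
      _ = _ := by ring
  set XP := univ.filter fun x : V n => m < #(P.filter fun p => π p = x) with hXP
  set XQ := univ.filter fun x : V n => m < #(Q.filter fun p => π p = x) with hXQ
  set XR := univ.filter fun x : V n => m < #(R.filter fun p => π p = x) with hXR
  set I := range m ×ˢ range m ×ˢ range m with hI
  set pc : ℕ × ℕ × ℕ → Finset (V n × V n) := fun i =>
    piecewise (sect π P i.1) (sect π Q i.2.1) (sect π R i.2.2) with hpc
  have hcov : A ⊆ ((XP ×ˢ (univ : Finset (V n))) ∪ ((univ : Finset (V n)) ×ˢ XQ)) ∪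
      ((((univ : Finset (V n)) ×ˢ XR).image fun q => (q.1, q.2 + q.1)) ∪ I.biUnion pc) := by
    intro a ha
    obtain ⟨p, hp, q, hq, hr, h1, h2⟩ := (hA a.1 a.2).1 ha
    by_cases g1 : a.1 ∈ XP
    · exact mem_union_left _ (mem_union_left _ (mem_product.2 ⟨g1, mem_univ _⟩))
    by_cases g2 : a.2 ∈ XQ
    · exact mem_union_left _ (mem_union_right _ (mem_product.2 ⟨mem_univ _, g2⟩))
    by_cases g3 : a.1 + a.2 ∈ XR
    · refine mem_union_right _ (mem_union_left _ (mem_image.2 ⟨(a.1, a.1 + a.2),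
        mem_product.2 ⟨mem_univ _, g3⟩, ?_⟩))
      refine Prod.ext rfl ?_
      show a.1 + a.2 + a.1 = a.2
      have := add_self_V a.1
      calc a.1 + a.2 + a.1 = (a.1 + a.1) + a.2 := by abel
        _ = a.2 := by rw [this, zero_add]
    refine mem_union_right _ (mem_union_right _ ?_)
    obtain ⟨i, hi, hi'⟩ := exists_sect (π := π) hp
    obtain ⟨j, hj, hj'⟩ := exists_sect (π := π) hq
    obtain ⟨k, hk, hk'⟩ := exists_sect (π := π) hr
    rw [map_add] at hk hk'
    rw [h1] at hi hi' hk hk'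
    rw [h2] at hj hj' hk hk'
    simp only [hXP, hXQ, hXR, mem_filter, mem_univ, true_and, not_lt] at g1 g2 g3
    refine mem_biUnion.2 ⟨(i, j, k), ?_, ?_⟩
    · simp only [hI, mem_product, mem_range]
      exact ⟨hi.trans_le g1, hj.trans_le g2, hk.trans_le g3⟩
    · simp only [hpc, piecewise, mem_filter, mem_univ, true_and]
      exact ⟨p, q, p + q, hi', hj', hk', rfl⟩
  have hsub : ∀ i, pc i ⊆ A := by
    intro i a ha
    simp only [hpc, piecewise, mem_filter, mem_univ, true_and] at ha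
    obtain ⟨p, q, r, h1, h2, h3, h4⟩ := ha
    refine (hA a.1 a.2).2 ⟨p, (sect_some h1).1, q, (sect_some h2).1, ?_, (sect_some h1).2,
      (sect_some h2).2⟩
    rw [h4]
    exact (sect_some h3).1
  have hsum : (#A : ℝ) ≤ (#XP * 2 ^ n + 2 ^ n * #XQ) + (2 ^ n * #XR + ∑ i ∈ I, (#(pc i) : ℝ)) := by
    have h1 := Finset.card_le_card hcov
    have h2 := h1.trans (Finset.card_union_le _ _)
    have h3 := Finset.card_union_le (XP ×ˢ (univ : Finset (V n))) ((univ : Finset (V n)) ×ˢ XQ)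
    have h4 := Finset.card_union_le (((univ : Finset (V n)) ×ˢ XR).image fun q => (q.1, q.2 + q.1))
      (I.biUnion pc)
    have h5 : #(((univ : Finset (V n)) ×ˢ XR).image fun q => (q.1, q.2 + q.1)) ≤ 2 ^ n * #XR := by
      refine Finset.card_image_le.trans (le_of_eq ?_)
      rw [Finset.card_product, Finset.card_univ, card_V]
    rw [Finset.card_product, Finset.card_product, Finset.card_univ, card_V] at h3
    have h6 : #(I.biUnion pc) ≤ ∑ i ∈ I, #(pc i) := Finset.card_biUnion_le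
    have h8 : #A ≤ (#XP * 2 ^ n + 2 ^ n * #XQ) + (2 ^ n * #XR + ∑ i ∈ I, #(pc i)) := by omega
    exact_mod_cast h8
  have k1 := key P hP
  have k2 := key Q hQ
  have k3 := key R hR
  have hhalf : δ / 2 * 4 ^ n ≤ ∑ i ∈ I, (#(pc i) : ℝ) := by
    rw [hAδ] at hsum
    have e1 : (2 : ℝ) ^ n * #XQ = #XQ * 2 ^ n := mul_comm _ _
    have e2 : (2 : ℝ) ^ n * #XR = #XR * 2 ^ n := mul_comm _ _
    rw [e1, e2] at hsum
    linarith
  have hIne : I.Nonempty := by
    have hm3 : 0 < m := by exact_mod_cast hm0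
    exact ⟨(0, 0, 0), by simp only [hI, mem_product, mem_range]; exact ⟨hm3, hm3, hm3⟩⟩
  have hIc : (#I : ℝ) = m ^ 3 := by
    rw [hI, Finset.card_product, Finset.card_product, Finset.card_range]
    push_cast; ring
  obtain ⟨i, hi, hmax⟩ := Finset.exists_max_image I (fun i => (#(pc i) : ℝ)) hIne
  refine ⟨pc i, additive_piecewise _ _ _, hsub i, ?_⟩
  have h1 : δ / 2 * 4 ^ n ≤ m ^ 3 * #(pc i) := by
    calc δ / 2 * 4 ^ n ≤ ∑ i ∈ I, (#(pc i) : ℝ) := hhalf
      _ ≤ ∑ _j ∈ I, (#(pc i) : ℝ) := Finset.sum_le_sum hmax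
      _ = m ^ 3 * #(pc i) := by rw [Finset.sum_const, nsmul_eq_mul, hIc]
  refine (num_lift δ M t m hδ0 hδ1 hM ht hm2 hm0).trans ?_
  unfold density
  rw [div_le_div_iff₀ (by positivity) h4n]
  linarith

/-- sets obtained from lifts -/
def IsLifted {n : ℕ} (M : ℝ) (E : Finset (V n × V n)) : Prop :=
  ∃ (B : Type) (_ : AddCommGroup B) (π : B →+ V n) (P Q R : Finset B),
    (#P : ℝ) ≤ M * 2 ^ n ∧ (#Q : ℝ) ≤ M * 2 ^ n ∧ (#R : ℝ) ≤ M * 2 ^ n ∧
      ∀ x y, (x, y) ∈ E ↔ ∃ p ∈ P, ∃ q ∈ Q, p + q ∈ R ∧ π p = x ∧ π q = y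

theorem isLifted_of_additive (E : Finset (V n × V n)) (hE : Additive E) : IsLifted 1 E := by
  classical
  obtain ⟨K, _, F, G, H, h⟩ := hE
  have hc : ∀ f : V n → K, (#((univ : Finset (V n)).image fun x => (x, f x)) : ℝ) ≤ 1 * 2 ^ n := by
    intro f
    have : #((univ : Finset (V n)).image fun x => (x, f x)) ≤ 2 ^ n := by
      refine Finset.card_image_le.trans (le_of_eq ?_)
      rw [Finset.card_univ, card_V]
    rw [one_mul]
    exact_mod_cast this
  refine ⟨V n × K, inferInstance, AddMonoidHom.fst (V n) K, univ.image fun x => (x, F x),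
    univ.image fun y => (y, G y), univ.image fun w => (w, -H w), hc _, hc _, hc _, fun x y => ?_⟩
  rw [h]
  constructor
  · intro h1
    refine ⟨(x, F x), mem_image_of_mem _ (mem_univ _), (y, G y), mem_image_of_mem _ (mem_univ _),
      mem_image.2 ⟨x + y, mem_univ _, ?_⟩, rfl, rfl⟩
    refine Prod.ext rfl ?_
    show -H (x + y) = F x + G y
    rw [← add_eq_zero_iff_neg_eq]
    rw [← h1]; abel
  · rintro ⟨p, hp, q, hq, hr, rfl, rfl⟩
    obtain ⟨x, -, rfl⟩ := mem_image.1 hp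
    obtain ⟨y, -, rfl⟩ := mem_image.1 hq
    obtain ⟨w, -, hw⟩ := mem_image.1 hr
    simp only [Prod.mk_add_mk, Prod.mk.injEq] at hw
    obtain ⟨rfl, hw⟩ := hw
    show F x + G y + H (x + y) = 0
    rw [← hw]; abel

theorem num_C (δ M : ℝ) (hδ : 0 ≤ δ) (hδ1 : δ ≤ 1) (hM : 1 ≤ M) (k : ℕ) :
    (δ / (2 * M)) ^ (14 * k) ≤ ((δ / (2 * M)) ^ 13 / 2) ^ k := by
  set η := δ / (2 * M) with hη
  have hη0 : 0 ≤ η := by positivity
  have hη1 : η ≤ 1 / 2 := by
    rw [hη, div_le_div_iff₀ (by positivity) (by norm_num)]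
    nlinarith
  rw [pow_mul]
  refine pow_le_pow_left₀ (by positivity) ?_ k
  calc η ^ 14 = η ^ 13 * η := by ring
    _ ≤ η ^ 13 * (1 / 2) := mul_le_mul_of_nonneg_left hη1 (by positivity)
    _ = η ^ 13 / 2 := by ring

/-- the constant of the main theorem -/
def bigC : ℕ := 14 * (300 * expo + 1)

theorem lift_box (E : Finset (V n × V n)) (M : ℝ) (hM : 1 ≤ M) (hE : IsLifted M E) :
    ∃ X Y Z : Finset (V n), box X Y Z ⊆ E ∧ (density E / (2 * M)) ^ bigC * 4 ^ n ≤ #(box X Y Z) := by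
  obtain ⟨B, _, π, P, Q, R, hP, hQ, hR, h⟩ := hE
  obtain ⟨E', hE', hsub, hd⟩ := additive_in_lift π P Q R E M hM hP hQ hR h
  obtain ⟨X, Y, Z, h1, h2⟩ := box_of_additive E' hE'
  refine ⟨X, Y, Z, h1.trans hsub, le_trans (mul_le_mul_of_nonneg_right ?_ (by positivity)) h2⟩
  have hd0 : 0 ≤ density E := by unfold density; positivity
  have hd1 : 0 ≤ density E' := by unfold density; positivity
  refine (num_C (density E) M hd0 (density_le E) hM (300 * expo + 1)).trans ?_
  have hb0 : 0 ≤ (density E / (2 * M)) ^ 13 := by positivity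
  have h3 : (density E / (2 * M)) ^ 13 / 2 ≤ density E' / 2 := by linarith
  have h4 : density E' / 2 ≤ 1 := by have := density_le E'; linarith
  calc ((density E / (2 * M)) ^ 13 / 2) ^ (300 * expo + 1)
      ≤ (density E' / 2) ^ (300 * expo + 1) := pow_le_pow_left₀ (by positivity) h3 _
    _ ≤ (density E' / 2) ^ expo := pow_le_pow_of_le_one (by positivity) h4 (by omega)

theorem corners_mono {A B : Finset (V n × V n)} (h : A ⊆ B) : corners A ≤ corners B := by
  refine Finset.card_le_card fun t ht => ?_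
  rw [mem_filter] at ht ⊢
  exact ⟨ht.1, h ht.2.1, h ht.2.2.1, h ht.2.2.2⟩

theorem lift_corners (E : Finset (V n × V n)) (M : ℝ) (hM : 1 ≤ M) (hE : IsLifted M E) :
    (density E / (2 * M)) ^ bigC * 8 ^ n ≤ corners E := by
  obtain ⟨B, _, π, P, Q, R, hP, hQ, hR, h⟩ := hE
  obtain ⟨E', hE', hsub, hd⟩ := additive_in_lift π P Q R E M hM hP hQ hR h
  have h1 := many_corners E' hE'
  have h2 : (corners E' : ℝ) ≤ corners E := by exact_mod_cast corners_mono hsub
  refine le_trans (mul_le_mul_of_nonneg_right ?_ (by positivity)) (h1.trans h2)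
  have hd0 : 0 ≤ density E := by unfold density; positivity
  refine (num_C (density E) M hd0 (density_le E) hM (300 * expo + 1)).trans ?_
  have hb0 : 0 ≤ (density E / (2 * M)) ^ 13 := by positivity
  have h3 : (density E / (2 * M)) ^ 13 / 2 ≤ density E' / 2 := by linarith
  exact pow_le_pow_left₀ (by positivity) h3 _

theorem bigC_pos : 0 < bigC := by unfold bigC; omega

theorem lift_bound' (A E : Finset (V n × V n)) (M : ℝ) (hM : 1 ≤ M) (hA : CornerFree A)
    (hE : IsLifted M E) (s : ℝ) (hs : (#(E \ A) : ℝ) ≤ s) :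
    (#E : ℝ) ≤ 2 * M * 4 ^ n * ((3 * s + 2 ^ n) / 4 ^ n) ^ (1 / (bigC : ℝ)) := by
  have h1 := lift_corners E M hM hE
  have h2 : (corners E : ℝ) ≤ #E + 3 * (2 ^ n * #(E \ A)) := by exact_mod_cast corners_le A E hA
  have h3 := card_le_four E
  have hM0 : 0 < M := by linarith
  have h2n : (0 : ℝ) < 2 ^ n := by positivity
  have e8 : (8 : ℝ) ^ n = 4 ^ n * 2 ^ n := by rw [← mul_pow]; norm_num
  have e4 : (4 : ℝ) ^ n = 2 ^ n * 2 ^ n := by rw [← mul_pow]; norm_num
  have hC : bigC ≠ 0 := bigC_pos.ne'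
  set k := bigC with hk
  clear_value k
  have h4 : (density E / (2 * M)) ^ k * 4 ^ n ≤ 3 * #(E \ A) + 2 ^ n := by
    refine le_of_mul_le_mul_right ?_ h2n
    calc (density E / (2 * M)) ^ k * 4 ^ n * 2 ^ n
        = (density E / (2 * M)) ^ k * 8 ^ n := by rw [e8]; ring
      _ ≤ 4 ^ n + 3 * (2 ^ n * #(E \ A)) := by linarith
      _ = _ := by rw [e4]; ring
  have h4n : (0 : ℝ) < 4 ^ n := by positivity
  have hs0 : 0 ≤ s := le_trans (Nat.cast_nonneg _) hs
  have hd0 : 0 ≤ density E := by unfold density; positivity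
  have h5 : (density E / (2 * M)) ^ k ≤ (3 * s + 2 ^ n) / 4 ^ n := by
    rw [le_div_iff₀ h4n]
    linarith
  have h6 : density E / (2 * M) ≤ ((3 * s + 2 ^ n) / 4 ^ n) ^ (1 / (k : ℝ)) := by
    have h7 := Real.rpow_le_rpow (by positivity) h5 (by positivity : (0 : ℝ) ≤ 1 / (k : ℝ))
    rw [one_div, Real.pow_rpow_inv_natCast (by positivity) hC, ← one_div] at h7
    exact h7
  have h8 : (#E : ℝ) = density E * 4 ^ n := by unfold density; field_simp
  rw [h8]
  calc density E * 4 ^ n = 2 * M * 4 ^ n * (density E / (2 * M)) := by field_simp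
    _ ≤ _ := mul_le_mul_of_nonneg_left h6 (by positivity)

end Pool.Agent.Helper45.AE
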