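import Pool.Agent.Helper45.AE.Varn

/-!
# Additive equations: many corners, stability, lifts
-/

set_option autoImplicit false

namespace Pool.Agent.Helper45.AE

open Finset

variable {n : ℕ}

theorem expo_pos : 0 < expo := by norm_num [expo]

attribute [local irreducible] expo

theorem sav_pos : 0 < sav := by
  unfold sav
  have : (0 : ℝ) < expo := by exact_mod_cast expo_pos
  positivity

/-- the density -/
noncomputable def density (E : Finset (V n × V n)) : ℝ := (#E : ℝ) / 4 ^ n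

theorem card_le_four (E : Finset (V n × V n)) : (#E : ℝ) ≤ 4 ^ n := by
  have h : #E ≤ 4 ^ n := by
    refine (Finset.card_le_univ _).trans (le_of_eq ?_)
    rw [Fintype.card_prod, card_V, ← mul_pow]
    norm_num
  exact_mod_cast h

theorem density_le (E : Finset (V n × V n)) : density E ≤ 1 := by
  unfold density
  rw [div_le_one (by positivity)]
  exact card_le_four E

/-- **Many corners.** -/
theorem many_corners (E : Finset (V n × V n)) (hE : Additive E) :
    (density E / 2) ^ (300 * expo + 1) * 8 ^ n ≤ corners E := by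
  rcases E.eq_empty_or_nonempty with h0 | hne
  · rw [h0]
    simp [density]
  have hE0 : (0 : ℝ) < #E := by exact_mod_cast hne.card_pos
  set δ := density E with hδ
  have hδ0 : 0 < δ := by rw [hδ]; unfold density; positivity
  have hδ1 : δ ≤ 1 := density_le E
  have h12 : (1 : ℝ) ≤ 12 / δ := by
    rw [le_div_iff₀ hδ0]; linarith
  obtain ⟨j0, hj1, hj2⟩ := exists_nat_pow_near h12 (by norm_num : (1 : ℝ) < 4)
  set j := j0 + 1 with hj
  set d := 25 * expo * j with hd
  have he : (0 : ℝ) < expo := by exact_mod_cast expo_pos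
  have hsd : sav * (d : ℝ) = j := by
    rw [hd]; unfold sav; push_cast; field_simp; norm_num
  have hb := varnavides (d := d) E hE (6 * (4 : ℝ) ^ ((1 - sav) * d)) fun B h1 h2 =>
    additive_small B h1 h2
  have e1 : 6 * (4 : ℝ) ^ ((1 - sav) * d) / 4 ^ d = 6 / 4 ^ j := by
    have : (4 : ℝ) ^ ((1 - sav) * (d : ℝ)) = 4 ^ d / 4 ^ j := by
      rw [sub_mul, one_mul, hsd, Real.rpow_sub (by norm_num), Real.rpow_natCast, Real.rpow_natCast]
    rw [this]
    field_simp
  rw [e1] at hb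
  have h4j : (12 : ℝ) / δ < 4 ^ j := hj2
  have e2 : (6 : ℝ) / 4 ^ j ≤ δ / 2 := by
    rw [div_lt_iff₀ hδ0] at h4j
    rw [div_le_div_iff₀ (by positivity) (by norm_num)]
    linarith
  have e3 : (#E : ℝ) = δ * 4 ^ n := by
    rw [hδ]; unfold density; field_simp
  have e4 : δ / 2 * 8 ^ n ≤ 8 ^ d * corners E := by
    refine le_trans ?_ hb
    rw [e3]
    have : δ / 2 * 8 ^ n = (δ * 4 ^ n - 4 ^ n * (δ / 2)) * 2 ^ n := by
      have : (8 : ℝ) ^ n = 4 ^ n * 2 ^ n := by rw [← mul_pow]; norm_num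
      rw [this]; ring
    rw [this]
    have h4n : (0 : ℝ) < 4 ^ n := by positivity
    have h2n : (0 : ℝ) < 2 ^ n := by positivity
    refine mul_le_mul_of_nonneg_right ?_ h2n.le
    have := mul_le_mul_of_nonneg_left e2 h4n.le
    linarith
  -- the size of `8 ^ d`
  have e5 : (8 : ℝ) ^ d ≤ (2 / δ) ^ (300 * expo) := by
    have h1 : (8 : ℝ) ^ j ≤ ((2 / δ) ^ 6) ^ 2 := by
      have h2 : (4 : ℝ) ^ j ≤ (2 / δ) ^ 6 := by
        have h3 : (4 : ℝ) ^ j ≤ 48 / δ := by
          rw [hj, pow_succ]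
          have : (48 : ℝ) / δ = 12 / δ * 4 := by ring
          rw [this]
          linarith
        refine h3.trans ?_
        rw [div_pow, div_le_div_iff₀ hδ0 (by positivity)]
        have h5 : δ ^ 6 ≤ δ := by
          calc δ ^ 6 ≤ δ ^ 1 := pow_le_pow_of_le_one hδ0.le hδ1 (by norm_num)
            _ = δ := pow_one δ
        have h6 : (2 : ℝ) ^ 6 = 64 := by norm_num
        rw [h6]
        linarith
      calc (8 : ℝ) ^ j ≤ (4 ^ j) ^ 2 := by
            rw [← pow_mul, mul_comm, pow_mul]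
            exact pow_le_pow_left₀ (by norm_num) (by norm_num) j
        _ ≤ _ := pow_le_pow_left₀ (by positivity) h2 2
    calc (8 : ℝ) ^ d = (8 ^ j) ^ (25 * expo) := by rw [← pow_mul, hd]; congr 1; ring
      _ ≤ (((2 / δ) ^ 6) ^ 2) ^ (25 * expo) := pow_le_pow_left₀ (by positivity) h1 _
      _ = (2 / δ) ^ (300 * expo) := by
        rw [← pow_mul, ← pow_mul, show 6 * (2 * (25 * expo)) = 300 * expo by ring]
  have e6 : (δ / 2) ^ (300 * expo) * (2 / δ) ^ (300 * expo) = 1 := by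
    rw [← mul_pow]
    have : δ / 2 * (2 / δ) = 1 := by field_simp
    rw [this, one_pow]
  calc (δ / 2) ^ (300 * expo + 1) * 8 ^ n = (δ / 2) ^ (300 * expo) * (δ / 2 * 8 ^ n) := by
        rw [pow_succ]; ring
    _ ≤ (δ / 2) ^ (300 * expo) * (8 ^ d * corners E) :=
        mul_le_mul_of_nonneg_left e4 (by positivity)
    _ ≤ (δ / 2) ^ (300 * expo) * ((2 / δ) ^ (300 * expo) * corners E) := by gcongr
    _ = corners E := by rw [← mul_assoc, e6, one_mul]

/-- every corner of `E` is trivial or has a point outside of the corner-free set `A` -/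
theorem corners_le (A E : Finset (V n × V n)) (hA : CornerFree A) :
    corners E ≤ #E + 3 * (2 ^ n * #(E \ A)) := by
  classical
  set S := ({t : V n × V n × V n | (t.1, t.2.1) ∈ E ∧ (t.1, t.2.1 + t.2.2) ∈ E ∧
    (t.1 + t.2.2, t.2.1) ∈ E} : Finset _) with hS
  have h1 : S ⊆ (S.filter fun t => t.2.2 = 0) ∪ ((S.filter fun t => (t.1, t.2.1) ∉ A) ∪
      ((S.filter fun t => (t.1, t.2.1 + t.2.2) ∉ A) ∪
        (S.filter fun t => (t.1 + t.2.2, t.2.1) ∉ A))) := by
    intro t ht
    simp only [mem_union, mem_filter]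
    by_cases a : (t.1, t.2.1) ∈ A
    · by_cases b : (t.1, t.2.1 + t.2.2) ∈ A
      · by_cases c : (t.1 + t.2.2, t.2.1) ∈ A
        · exact Or.inl ⟨ht, hA _ _ _ a b c⟩
        · exact Or.inr (Or.inr (Or.inr ⟨ht, c⟩))
      · exact Or.inr (Or.inr (Or.inl ⟨ht, b⟩))
    · exact Or.inr (Or.inl ⟨ht, a⟩)
  have h2 : #(S.filter fun t => t.2.2 = 0) ≤ #E := by
    refine Finset.card_le_card_of_injOn (fun t => (t.1, t.2.1)) ?_ ?_
    · intro t ht
      have := (mem_filter.1 (mem_coe.1 ht)).1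
      rw [hS, mem_filter] at this
      exact this.2.1
    · intro t ht t' ht' h
      have e1 := (mem_filter.1 (mem_coe.1 ht)).2
      have e2 := (mem_filter.1 (mem_coe.1 ht')).2
      rw [Prod.mk.injEq] at h
      exact Prod.ext h.1 (Prod.ext h.2 (e1.trans e2.symm))
  have hcard : 2 ^ n * #(E \ A) = #((univ : Finset (V n)) ×ˢ (E \ A)) := by
    rw [Finset.card_product, Finset.card_univ, card_V]
  have h3 : #(S.filter fun t => (t.1, t.2.1) ∉ A) ≤ 2 ^ n * #(E \ A) := by
    rw [hcard]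
    refine Finset.card_le_card_of_injOn (fun t => (t.2.2, (t.1, t.2.1))) ?_ ?_
    · intro t ht
      have h4 := mem_filter.1 (mem_coe.1 ht)
      have h5 := h4.1
      rw [hS, mem_filter] at h5
      exact mem_coe.2 (mem_product.2 ⟨mem_univ _, mem_sdiff.2 ⟨h5.2.1, h4.2⟩⟩)
    · intro t _ t' _ h
      simp only [Prod.mk.injEq] at h
      exact Prod.ext h.2.1 (Prod.ext h.2.2 h.1)
  have h4 : #(S.filter fun t => (t.1, t.2.1 + t.2.2) ∉ A) ≤ 2 ^ n * #(E \ A) := by
    rw [hcard]
    refine Finset.card_le_card_of_injOn (fun t => (t.2.2, (t.1, t.2.1 + t.2.2))) ?_ ?_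
    · intro t ht
      have h4 := mem_filter.1 (mem_coe.1 ht)
      have h5 := h4.1
      rw [hS, mem_filter] at h5
      exact mem_coe.2 (mem_product.2 ⟨mem_univ _, mem_sdiff.2 ⟨h5.2.2.1, h4.2⟩⟩)
    · intro t _ t' _ h
      simp only [Prod.mk.injEq] at h
      have e := h.2.2
      rw [h.1] at e
      exact Prod.ext h.2.1 (Prod.ext (add_right_cancel e) h.1)
  have h5 : #(S.filter fun t => (t.1 + t.2.2, t.2.1) ∉ A) ≤ 2 ^ n * #(E \ A) := by
    rw [hcard]
    refine Finset.card_le_card_of_injOn (fun t => (t.2.2, (t.1 + t.2.2, t.2.1))) ?_ ?_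
    · intro t ht
      have h4 := mem_filter.1 (mem_coe.1 ht)
      have h5 := h4.1
      rw [hS, mem_filter] at h5
      exact mem_coe.2 (mem_product.2 ⟨mem_univ _, mem_sdiff.2 ⟨h5.2.2.2, h4.2⟩⟩)
    · intro t _ t' _ h
      simp only [Prod.mk.injEq] at h
      have e := h.2.1
      rw [h.1] at e
      exact Prod.ext (add_right_cancel e) (Prod.ext h.2.2 h.1)
  have h6 : corners E = #S := rfl
  rw [h6]
  refine (Finset.card_le_card h1).trans ?_
  refine (Finset.card_union_le _ _).trans ?_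
  have h7 := Finset.card_union_le (S.filter fun t => (t.1, t.2.1) ∉ A)
    ((S.filter fun t => (t.1, t.2.1 + t.2.2) ∉ A) ∪ (S.filter fun t => (t.1 + t.2.2, t.2.1) ∉ A))
  have h8 := Finset.card_union_le (S.filter fun t => (t.1, t.2.1 + t.2.2) ∉ A)
    (S.filter fun t => (t.1 + t.2.2, t.2.1) ∉ A)
  omega

/-- **Stability.** -/
theorem stability (A E : Finset (V n × V n)) (hA : CornerFree A) (hE : Additive E) :
    (density E / 2) ^ (300 * expo + 1) * 4 ^ n ≤ 3 * #(E \ A) + 2 ^ n := by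
  have h1 := many_corners E hE
  have h2 : (corners E : ℝ) ≤ #E + 3 * (2 ^ n * #(E \ A)) := by exact_mod_cast corners_le A E hA
  have h3 := card_le_four E
  have h2n : (0 : ℝ) < 2 ^ n := by positivity
  have e8 : (8 : ℝ) ^ n = 4 ^ n * 2 ^ n := by rw [← mul_pow]; norm_num
  have e4 : (4 : ℝ) ^ n = 2 ^ n * 2 ^ n := by rw [← mul_pow]; norm_num
  have h4 : (density E / 2) ^ (300 * expo + 1) * 4 ^ n * 2 ^ n ≤ (3 * #(E \ A) + 2 ^ n) * 2 ^ n := by
    calc (density E / 2) ^ (300 * expo + 1) * 4 ^ n * 2 ^ n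
        = (density E / 2) ^ (300 * expo + 1) * 8 ^ n := by rw [e8]; ring
      _ ≤ 4 ^ n + 3 * (2 ^ n * #(E \ A)) := by linarith
      _ = _ := by rw [e4]; ring
  exact le_of_mul_le_mul_right h4 h2n

theorem additive_bound (A E : Finset (V n × V n)) (hA : CornerFree A) (hE : Additive E) (s : ℝ)
    (hs : (#(E \ A) : ℝ) ≤ s) :
    (#E : ℝ) ≤ 2 * 4 ^ n * ((3 * s + 2 ^ n) / 4 ^ n) ^ (1 / ((300 * expo + 1 : ℕ) : ℝ)) := by
  have h1 := stability A E hA hE
  have hC : (300 * expo + 1 : ℕ) ≠ 0 := by omega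
  have h4n : (0 : ℝ) < 4 ^ n := by positivity
  have hs0 : 0 ≤ s := le_trans (Nat.cast_nonneg _) hs
  have hd0 : 0 ≤ density E := by unfold density; positivity
  have h2 : (density E / 2) ^ (300 * expo + 1) ≤ (3 * s + 2 ^ n) / 4 ^ n := by
    rw [le_div_iff₀ h4n]
    linarith
  have h3 : density E / 2 ≤ ((3 * s + 2 ^ n) / 4 ^ n) ^ (1 / ((300 * expo + 1 : ℕ) : ℝ)) := by
    have h4 := Real.rpow_le_rpow (by positivity) h2
      (by positivity : (0 : ℝ) ≤ 1 / ((300 * expo + 1 : ℕ) : ℝ))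
    rw [one_div, Real.pow_rpow_inv_natCast (by positivity) hC, ← one_div] at h4
    exact h4
  have h5 : (#E : ℝ) = density E * 4 ^ n := by unfold density; field_simp
  rw [h5]
  calc density E * 4 ^ n = 2 * 4 ^ n * (density E / 2) := by ring
    _ ≤ _ := mul_le_mul_of_nonneg_left h3 (by positivity)

end Pool.Agent.Helper45.AE
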