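import Pool.Agent.Helper45.AE.Energy
import Pool.Graph.R_seed8.R884.CG.Pfr

/-!
# Additive equations: a function with a graph of small doubling is affine on a large set
-/

set_option autoImplicit false

namespace Pool.Agent.Helper45.AE

open Finset
open scoped Pointwise

theorem exists_fiber {α β : Type*} [DecidableEq β] {S : Finset α} (hS : S.Nonempty) (f : α → β)
    {m : ℝ} (hm : (#(S.image f) : ℝ) ≤ m) :
    ∃ b, (#S : ℝ) ≤ m * #{x ∈ S | f x = b} ∧ ({x ∈ S | f x = b}).Nonempty := by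
  classical
  obtain ⟨b, hb, hmax⟩ := Finset.exists_max_image (S.image f) (fun b => #{x ∈ S | f x = b})
    (hS.image f)
  have h1 : #S = ∑ b ∈ S.image f, #{x ∈ S | f x = b} :=
    Finset.card_eq_sum_card_fiberwise fun x hx => mem_coe.2 (mem_image_of_mem f (mem_coe.1 hx))
  have h2 : #S ≤ #(S.image f) * #{x ∈ S | f x = b} := by
    rw [h1]
    refine (Finset.sum_le_sum hmax).trans ?_
    rw [Finset.sum_const, smul_eq_mul]
  refine ⟨b, ?_, ?_⟩
  · calc (#S : ℝ) ≤ #(S.image f) * #{x ∈ S | f x = b} := by exact_mod_cast h2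
      _ ≤ m * #{x ∈ S | f x = b} := mul_le_mul_of_nonneg_right hm (Nat.cast_nonneg _)
  · obtain ⟨x, hx, hxb⟩ := mem_image.1 hb
    exact ⟨x, mem_filter.2 ⟨hx, hxb⟩⟩

variable {W : Type*} [AddCommGroup W] [Fintype W] [DecidableEq W]

theorem card_nsmul_le {G : Type*} [AddCommGroup G] [DecidableEq G] {A : Finset G}
    (hA : A.Nonempty) {L : ℝ} (hL : (#(A - A) : ℝ) ≤ L * #A) (n : ℕ) :
    (#(n • A) : ℝ) ≤ L ^ n * #A := by
  have h := Finset.pluennecke_ruzsa_inequality_nsmul_sub hA A n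
  have h' : (#(n • A) : ℝ) ≤ ((#(A - A) : ℝ) / #A) ^ n * #A := by
    have h'' := (NNRat.cast_le (K := ℝ)).2 h
    push_cast at h''
    exact h''
  have hm : (0 : ℝ) < #A := by exact_mod_cast hA.card_pos
  refine h'.trans (mul_le_mul_of_nonneg_right (pow_le_pow_left₀ (by positivity) ?_ n) hm.le)
  rw [div_le_iff₀ hm]
  exact hL

omit [Fintype W] in
/-- `2 F` takes few values if the graph of `F` has small doubling. -/
theorem const_double {K : Type*} [AddCommGroup K] [DecidableEq K] (h2 : ∀ w : W, w + w = 0)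
    (F : W → K) {X : Finset W} (hX : X.Nonempty) {L : ℝ}
    (hL : (#(graph F X - graph F X) : ℝ) ≤ L * #X) :
    ∃ X2 ⊆ X, X2.Nonempty ∧ (#X : ℝ) ≤ L ^ 3 * #X2 ∧ ∃ c, ∀ x ∈ X2, F x + F x = c := by
  classical
  have hg : (graph F X).Nonempty := hX.image _
  have h3 := card_nsmul_le hg (L := L) (by rw [card_graph]; exact hL) 3
  rw [card_graph] at h3
  have hm : (0 : ℝ) < #X := by exact_mod_cast hX.card_pos
  have h4 : #(X.image fun x => F x + F x) * #X ≤ #(3 • graph F X) := by
    rw [← Finset.card_product]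
    refine Finset.card_le_card_of_injOn (fun p => (p.2, p.1 + F p.2)) ?_ ?_
    · intro p hp
      rw [mem_coe, mem_product, mem_image] at hp
      obtain ⟨⟨r, hr, hr'⟩, hx⟩ := hp
      have e : (3 : ℕ) • graph F X = graph F X + graph F X + graph F X := by
        rw [show (3 : ℕ) = 2 + 1 by rfl, succ_nsmul, two_nsmul]
      rw [mem_coe, e, mem_add]
      refine ⟨(r, F r) + (r, F r), add_mem_add (mem_image_of_mem _ hr) (mem_image_of_mem _ hr),
        (p.2, F p.2), mem_image_of_mem _ hx, ?_⟩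
      rw [Prod.mk_add_mk, Prod.mk_add_mk, h2, zero_add, hr']
    · intro p _ q _ h
      rw [Prod.mk.injEq] at h
      refine Prod.ext ?_ h.1
      have := h.2
      rw [h.1] at this
      exact add_right_cancel this
  have h5 : (#(X.image fun x => F x + F x) : ℝ) ≤ L ^ 3 := by
    have : (#(X.image fun x => F x + F x) : ℝ) * #X ≤ L ^ 3 * #X := le_trans (by exact_mod_cast h4) h3
    exact le_of_mul_le_mul_right this hm
  obtain ⟨c, hc, hne⟩ := exists_fiber hX (fun x => F x + F x) h5
  exact ⟨_, Finset.filter_subset _ _, hne, hc, c, fun x hx => (mem_filter.1 hx).2⟩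

/-- A map `F` into an elementary abelian 2-group with a graph of small doubling is affine on a large
set. -/
theorem affine_two {K : Type*} [AddCommGroup K] [DecidableEq K] (h2 : ∀ w : W, w + w = 0)
    (hK : ∀ k : K, k + k = 0) [Finite K]
    (F : W → K) {X : Finset W} (hX : X.Nonempty) {L : ℝ}
    (hL : (#(graph F X + graph F X) : ℝ) ≤ L * #X) :
    ∃ X4 ⊆ X, X4.Nonempty ∧ (#X : ℝ) ≤ L ^ 66 * #X4 ∧ ∃ (ψ : W →+ K) (c : K),
      ∀ x ∈ X4, F x = ψ x + c := by
  classical
  haveI : Fintype K := Fintype.ofFinite K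
  have hg : (graph F X).Nonempty := hX.image _
  have h22 : ∀ v : W × K, v + v = 0 := fun v => Prod.ext (h2 v.1) (hK v.2)
  have hm : (0 : ℝ) < #X := by exact_mod_cast hX.card_pos
  have hL0 : 0 < L := by
    have : (0 : ℝ) < #(graph F X + graph F X) := by exact_mod_cast (hg.add hg).card_pos
    by_contra h
    push Not at h
    have := mul_nonpos_of_nonpos_of_nonneg h hm.le
    linarith
  obtain ⟨G, g, hG1, hG2, -⟩ := Pool.Agent.R884.CG.pfr_set h22 hg (L := L)
    (by rw [card_graph]; convert hL using 3)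
  rw [card_graph] at hG1 hG2
  letI : Module (ZMod 2) W := AddCommGroup.zmodModule (n := 2) fun x => by rw [two_nsmul]; exact h2 x
  letI : Module (ZMod 2) K := AddCommGroup.zmodModule (n := 2) fun x => by rw [two_nsmul]; exact hK x
  haveI : Fact (Nat.Prime 2) := ⟨Nat.prime_two⟩
  -- a linear map with graph in `G`
  set G' : Submodule (ZMod 2) (W × K) := AddSubgroup.toZModSubmodule 2 G with hG'
  have hmem : ∀ v, v ∈ G' ↔ v ∈ G := fun v => Iff.rfl
  set R : Submodule (ZMod 2) W := G'.map (LinearMap.fst (ZMod 2) W K) with hR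
  let p : G' →ₗ[ZMod 2] R := (LinearMap.fst (ZMod 2) W K).restrict fun v hv =>
    Submodule.mem_map_of_mem hv
  have hp : LinearMap.range p = ⊤ := by
    rw [LinearMap.range_eq_top]
    rintro ⟨w, hw⟩
    obtain ⟨v, hv, rfl⟩ := Submodule.mem_map.1 hw
    exact ⟨⟨v, hv⟩, rfl⟩
  obtain ⟨s, hs⟩ := LinearMap.exists_rightInverse_of_surjective p hp
  obtain ⟨ψ, hψ⟩ := LinearMap.exists_extend ((LinearMap.snd (ZMod 2) W K) ∘ₗ G'.subtype ∘ₗ s)
  have hψ' : ∀ v ∈ G, (v.1, ψ v.1) ∈ G := by
    intro v hv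
    have hv1 : v.1 ∈ R := Submodule.mem_map_of_mem (f := LinearMap.fst (ZMod 2) W K) hv
    have e1 : ψ v.1 = (s ⟨v.1, hv1⟩ : W × K).2 := by
      have := LinearMap.congr_fun hψ ⟨v.1, hv1⟩
      simpa using this
    have e2 : (s ⟨v.1, hv1⟩ : W × K).1 = v.1 := by
      have := LinearMap.congr_fun hs ⟨v.1, hv1⟩
      exact congrArg Subtype.val this
    have : (v.1, ψ v.1) = (s ⟨v.1, hv1⟩ : W × K) := Prod.ext e2.symm e1
    rw [this]
    exact (s ⟨v.1, hv1⟩).2
  -- the points of the graph in the coset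
  set X3 := X.filter fun x => (x, F x) - g ∈ G with hX3
  have h3 : #((graph F X).filter fun b => b - g ∈ G) = #X3 := by
    rw [graph, Finset.filter_image, Finset.card_image_of_injective]
    intro x y h
    exact (Prod.mk.inj h).1
  have h3' : (#X : ℝ) ≤ L ^ 22 * #X3 := by
    rw [← h3]
    convert hG1 using 4
  have hX3ne : X3.Nonempty := by
    by_contra h
    rw [Finset.not_nonempty_iff_eq_empty] at h
    rw [h, Finset.card_empty, Nat.cast_zero, mul_zero] at h3'
    linarith
  have hm3 : (0 : ℝ) < #X3 := by exact_mod_cast hX3ne.card_pos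
  -- the vertical part of `G`
  set G0 : Finset K := univ.filter fun k => ((0 : W), k) ∈ G with hG0
  have h4 : #G0 * #X3 ≤ Nat.card G := by
    rw [← Finset.card_product, Nat.card_eq_fintype_card, ← Fintype.card_coe (G0 ×ˢ X3)]
    have hq : ∀ q : {q // q ∈ G0 ×ˢ X3}, ((q.1.2, F q.1.2) - g) + (0, q.1.1) ∈ G := by
      intro q
      have hq := mem_product.1 q.2
      exact G.add_mem (mem_filter.1 hq.2).2 (mem_filter.1 hq.1).2
    refine Fintype.card_le_of_injective (fun q => (⟨_, hq q⟩ : G)) ?_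
    intro q q' h
    have h := congrArg Subtype.val h
    have e1 := congrArg Prod.fst h
    have e2 := congrArg Prod.snd h
    simp only [Prod.fst_add, Prod.fst_sub, add_zero, Prod.snd_add, Prod.snd_sub] at e1 e2
    have e3 : q.1.2 = q'.1.2 := sub_left_injective e1
    rw [e3] at e2
    exact Subtype.ext (Prod.ext (add_left_cancel e2) e3)
  have h5 : (#G0 : ℝ) ≤ L ^ 44 := by
    have h6 : (#G0 : ℝ) * #X3 ≤ L ^ 22 * (L ^ 22 * #X3) := by
      calc (#G0 : ℝ) * #X3 ≤ Nat.card G := by exact_mod_cast h4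
        _ ≤ L ^ 22 * #X := hG2
        _ ≤ _ := mul_le_mul_of_nonneg_left h3' (by positivity)
    have h7 : L ^ 22 * (L ^ 22 * (#X3 : ℝ)) = L ^ 44 * #X3 := by ring
    rw [h7] at h6
    exact le_of_mul_le_mul_right h6 hm3
  have h6 : (#(X3.image fun x => F x - ψ x) : ℝ) ≤ L ^ 44 := by
    refine le_trans ?_ h5
    have : #(X3.image fun x => F x - ψ x) ≤ #(G0.image fun k => k + (g.2 - ψ g.1)) := by
      refine Finset.card_le_card fun k hk => ?_
      obtain ⟨x, hx, rfl⟩ := mem_image.1 hk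
      have hx' := (mem_filter.1 hx).2
      have hx'' := hψ' _ hx'
      have hx0 := G.sub_mem hx' hx''
      rw [mem_image]
      refine ⟨(((x, F x) - g) - ((((x, F x) - g).1, ψ ((x, F x) - g).1))).2, ?_, ?_⟩
      · rw [hG0, mem_filter]
        refine ⟨mem_univ _, ?_⟩
        have e : ((0 : W), (((x, F x) - g) - ((((x, F x) - g).1, ψ ((x, F x) - g).1))).2) =
          ((x, F x) - g) - ((((x, F x) - g).1, ψ ((x, F x) - g).1)) := by
          refine Prod.ext ?_ rfl
          simp
        rw [e]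
        exact hx0
      · simp only [Prod.snd_sub, Prod.fst_sub, map_sub]
        abel
    exact_mod_cast this.trans Finset.card_image_le
  obtain ⟨c, hc, hne⟩ := exists_fiber hX3ne (fun x => F x - ψ x) h6
  refine ⟨X3.filter fun x => F x - ψ x = c, (Finset.filter_subset _ _).trans
    (Finset.filter_subset _ _), hne, ?_, ψ.toAddMonoidHom, c, fun x hx => ?_⟩
  · calc (#X : ℝ) ≤ L ^ 22 * #X3 := h3'
      _ ≤ L ^ 22 * (L ^ 44 * #(X3.filter fun x => F x - ψ x = c)) :=
        mul_le_mul_of_nonneg_left hc (by positivity)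
      _ = _ := by ring
  · have := (mem_filter.1 hx).2
    show F x = ψ x + c
    rw [← this]; abel

/-- A function with a graph of small doubling is affine on a large set. -/
theorem affine_small {K : Type*} [AddCommGroup K] [DecidableEq K] (h2 : ∀ w : W, w + w = 0)
    (F : W → K) {X : Finset W} (hX : X.Nonempty) {L : ℝ}
    (hL : (#(graph F X - graph F X) : ℝ) ≤ L * #X) :
    ∃ X4 ⊆ X, X4.Nonempty ∧ (#X : ℝ) ≤ L ^ 333 * #X4 ∧ ∃ (ψ : W →+ K) (c : K),
      ∀ x ∈ X4, F x = ψ x + c := by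
  classical
  have hg : (graph F X).Nonempty := hX.image _
  have hm : (0 : ℝ) < #X := by exact_mod_cast hX.card_pos
  have hL0 : 0 < L := by
    have : (0 : ℝ) < #(graph F X - graph F X) := by exact_mod_cast (hg.sub hg).card_pos
    by_contra h
    push Not at h
    have := mul_nonpos_of_nonpos_of_nonneg h hm.le
    linarith
  obtain ⟨X2, hX2, hne, hc, c0, hc0⟩ := const_double h2 F hX hL
  obtain ⟨x0, hx0⟩ := hne
  set D : Finset K := X2.image fun x => F x - F x0 with hD
  set T : AddSubgroup K := AddSubgroup.closure (D : Set K) with hT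
  have hT2 : ∀ t ∈ T, t + t = 0 := by
    intro t ht
    refine AddSubgroup.closure_induction (p := fun t _ => t + t = 0) ?_ ?_ ?_ ?_ ht
    · intro t ht
      obtain ⟨x, hx, rfl⟩ := mem_image.1 (mem_coe.1 ht)
      have e1 := hc0 x hx
      have e2 := hc0 x0 hx0
      have : F x - F x0 + (F x - F x0) = (F x + F x) - (F x0 + F x0) := by abel
      rw [this, e1, e2, sub_self]
    · exact add_zero 0
    · intro a b _ _ ha hb
      have : a + b + (a + b) = (a + a) + (b + b) := by abel
      rw [this, ha, hb, add_zero]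
    · intro a _ ha
      have : -a + -a = -(a + a) := by abel
      rw [this, ha, neg_zero]
  have hK2 : ∀ t : T, t + t = 0 := fun t => Subtype.ext (hT2 t.1 t.2)
  have hfin : Finite T := by
    have : Finite (D : Set K) := D.finite_toSet
    have : AddGroup.FG T := AddGroup.closure_finite_fg (D : Set K)
    refine AddCommGroup.finite_of_fg_isAddTorsion T fun t => ?_
    rw [isOfFinAddOrder_iff_nsmul_eq_zero]
    exact ⟨2, by norm_num, by rw [two_nsmul]; exact hK2 t⟩
  have hmemT : ∀ x ∈ X2, F x - F x0 ∈ T := fun x hx =>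
    AddSubgroup.subset_closure (mem_coe.2 (mem_image_of_mem (fun x => F x - F x0) hx))
  let F2 : W → T := fun x => if h : x ∈ X2 then ⟨F x - F x0, hmemT x h⟩ else 0
  have hF2 : ∀ x ∈ X2, (F2 x : K) = F x - F x0 := by
    intro x hx
    simp only [F2, dif_pos hx]
  have h3 : #(graph F2 X2 + graph F2 X2) ≤ #(graph F X + graph F X) := by
    refine Finset.card_le_card_of_injOn (fun p => (p.1, (p.2 : K) + F x0 + F x0)) ?_ ?_
    · intro p hp
      rw [mem_coe, mem_add] at hp
      obtain ⟨a, ha, b, hb, rfl⟩ := hp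
      obtain ⟨x, hx, rfl⟩ := mem_image.1 ha
      obtain ⟨y, hy, rfl⟩ := mem_image.1 hb
      rw [mem_coe, mem_add]
      refine ⟨(x, F x), mem_image_of_mem _ (hX2 hx), (y, F y), mem_image_of_mem _ (hX2 hy), ?_⟩
      simp only [Prod.mk_add_mk, Prod.mk.injEq, true_and, AddSubgroup.coe_add]
      rw [hF2 x hx, hF2 y hy]
      abel
    · intro p _ q _ h
      rw [Prod.mk.injEq] at h
      exact Prod.ext h.1 (Subtype.ext (add_right_cancel (add_right_cancel h.2)))
  have h4 : (#(graph F X + graph F X) : ℝ) ≤ L ^ 2 * #X := by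
    have := card_nsmul_le hg (L := L) (by rw [card_graph]; exact hL) 2
    rwa [two_nsmul, card_graph] at this
  have h5 : (#(graph F2 X2 + graph F2 X2) : ℝ) ≤ L ^ 5 * #X2 := by
    calc (#(graph F2 X2 + graph F2 X2) : ℝ) ≤ #(graph F X + graph F X) := by exact_mod_cast h3
      _ ≤ L ^ 2 * #X := h4
      _ ≤ L ^ 2 * (L ^ 3 * #X2) := mul_le_mul_of_nonneg_left hc (by positivity)
      _ = _ := by ring
  obtain ⟨X4, hX4, hne4, hc4, ψ, c, hψ⟩ := affine_two h2 hK2 F2 ⟨x0, hx0⟩ h5
  refine ⟨X4, hX4.trans hX2, hne4, ?_, T.subtype.comp ψ, c + F x0, fun x hx => ?_⟩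
  · calc (#X : ℝ) ≤ L ^ 3 * #X2 := hc
      _ ≤ L ^ 3 * ((L ^ 5) ^ 66 * #X4) := mul_le_mul_of_nonneg_left hc4 (by positivity)
      _ = _ := by ring
  · have e1 := congrArg Subtype.val (hψ x hx)
    rw [hF2 x (hX4 hx)] at e1
    have e2 : F x = (F x - F x0) + F x0 := by abel
    rw [e2, e1]
    simp only [AddSubgroup.coe_add, AddMonoidHom.comp_apply, AddSubgroup.coe_subtype]
    abel

/-- A function with a graph of large additive energy is affine on a large set. -/
theorem affine_energy {K : Type*} [AddCommGroup K] [DecidableEq K] (h2 : ∀ w : W, w + w = 0)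
    (F : W → K) {X : Finset W} (hX : X.Nonempty) {k : ℝ} (hk : 0 < k)
    (hE : (#X : ℝ) ^ 3 ≤ k * ((graph F X).addEnergy (graph F X) : ℕ)) :
    ∃ X4 ⊆ X, X4.Nonempty ∧ (#X : ℝ) ≤ 8 * k * (2 ^ 22 * k ^ 10) ^ 333 * #X4 ∧
      ∃ (ψ : W →+ K) (c : K), ∀ x ∈ X4, F x = ψ x + c := by
  classical
  have hg : (graph F X).Nonempty := hX.image _
  obtain ⟨B, hB, hBne, h1, h3⟩ := Pool.Agent.H217R3.AK.bsg (graph F X) hg k hk
    (by rw [card_graph]; exact hE)
  set X1 := X.filter fun x => (x, F x) ∈ B with hX1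
  have hgB : graph F X1 = B := by
    ext b
    simp only [graph, mem_image, hX1, mem_filter]
    constructor
    · rintro ⟨x, ⟨_, hx⟩, rfl⟩
      exact hx
    · intro hb
      obtain ⟨x, hx, rfl⟩ := mem_image.1 (hB hb)
      exact ⟨x, ⟨hx, hb⟩, rfl⟩
  have hc1 : #B = #X1 := by rw [← hgB, card_graph]
  have hne : X1.Nonempty := by
    rw [← Finset.card_pos, ← hc1]; exact hBne.card_pos
  rw [card_graph, hc1] at h1
  rw [← hgB, card_graph] at h3
  obtain ⟨X4, hX4, hne4, hc4, hψ⟩ := affine_small h2 F hne h3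
  refine ⟨X4, hX4.trans (Finset.filter_subset _ _), hne4, ?_, hψ⟩
  calc (#X : ℝ) ≤ 8 * k * #X1 := h1
    _ ≤ 8 * k * ((2 ^ 22 * k ^ 10) ^ 333 * #X4) := mul_le_mul_of_nonneg_left hc4 (by positivity)
    _ = _ := by ring

end Pool.Agent.Helper45.AE
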