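import Pool.Agent.Helper45.AE.Corner

/-!
# Additive equations: many corners
-/

set_option autoImplicit false

namespace Pool.Agent.Helper45.AE

open Finset

variable {n d : ℕ}

/-- the combination with coefficients `u` -/
def lin (z : Fin d → V n) (u : V d) : V n := ∑ i, u i • z i

theorem lin_add (z : Fin d → V n) (u v : V d) : lin z (u + v) = lin z u + lin z v := by
  unfold lin
  rw [← Finset.sum_add_distrib]
  exact Finset.sum_congr rfl fun i _ => by rw [Pi.add_apply, add_smul]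

/-- the pull-back of `E` -/
def pull (E : Finset (V n × V n)) (x0 y0 : V n) (z : Fin d → V n) : Finset (V d × V d) :=
  univ.filter fun p => (x0 + lin z p.1, y0 + lin z p.2) ∈ E

theorem additive_pull {E : Finset (V n × V n)} (hE : Additive E) (x0 y0 : V n)
    (z : Fin d → V n) : Additive (pull E x0 y0 z) := by
  obtain ⟨K, _, F, G, H, h⟩ := hE
  refine ⟨K, ‹_›, fun u => F (x0 + lin z u), fun v => G (y0 + lin z v),
    fun w => H (x0 + y0 + lin z w), fun x y => ?_⟩
  simp only [pull, mem_filter, mem_univ, true_and]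
  rw [h, lin_add]
  have : x0 + lin z x + (y0 + lin z y) = x0 + y0 + (lin z x + lin z y) := by abel
  rw [this]

/-- nontrivial corners -/
def nt {m : ℕ} (A : Finset (V m × V m)) : Finset (V m × V m × V m) :=
  univ.filter fun t => t.2.2 ≠ 0 ∧ (t.1, t.2.1) ∈ A ∧ (t.1, t.2.1 + t.2.2) ∈ A ∧
    (t.1 + t.2.2, t.2.1) ∈ A

theorem sum_pull (E : Finset (V n × V n)) :
    ∑ ω : V n × V n × (Fin d → V n), #(pull E ω.1 ω.2.1 ω.2.2) = 4 ^ d * (#E * (2 ^ n) ^ d) := by
  classical
  have h1 : ∀ ω : V n × V n × (Fin d → V n), #(pull E ω.1 ω.2.1 ω.2.2) =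
      ∑ p : V d × V d, if (ω.1 + lin ω.2.2 p.1, ω.2.1 + lin ω.2.2 p.2) ∈ E then 1 else 0 := by
    intro ω
    rw [pull, Finset.card_filter]
  simp_rw [h1]
  rw [Finset.sum_comm]
  have h2 : ∀ p : V d × V d, (∑ ω : V n × V n × (Fin d → V n),
      if (ω.1 + lin ω.2.2 p.1, ω.2.1 + lin ω.2.2 p.2) ∈ E then 1 else 0) = #E * (2 ^ n) ^ d := by
    intro p
    rw [← Finset.card_filter]
    have : #E * (2 ^ n) ^ d = #(E ×ˢ (univ : Finset (Fin d → V n))) := by
      rw [Finset.card_product, Finset.card_univ, Fintype.card_fun, card_V, Fintype.card_fin]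
    rw [this]
    refine Finset.card_bij (fun ω _ => ((ω.1 + lin ω.2.2 p.1, ω.2.1 + lin ω.2.2 p.2), ω.2.2))
      ?_ ?_ ?_
    · intro ω hω
      rw [mem_product]
      exact ⟨(mem_filter.1 hω).2, mem_univ _⟩
    · intro ω _ ω' _ h
      simp only [Prod.mk.injEq] at h
      obtain ⟨⟨h3, h4⟩, h5⟩ := h
      rw [h5] at h3 h4
      exact Prod.ext (add_right_cancel h3) (Prod.ext (add_right_cancel h4) h5)
    · intro q hq
      refine ⟨(q.1.1 - lin q.2 p.1, q.1.2 - lin q.2 p.2, q.2), ?_, ?_⟩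
      · rw [mem_filter]
        refine ⟨mem_univ _, ?_⟩
        simp only [sub_add_cancel]
        exact (mem_product.1 hq).1
      · simp only [sub_add_cancel]
  rw [Finset.sum_congr rfl fun p _ => h2 p, Finset.sum_const, Finset.card_univ, Fintype.card_prod,
    card_V, smul_eq_mul]
  congr 1
  rw [← mul_pow]
  norm_num

theorem sum_nt (E : Finset (V n × V n)) :
    2 ^ n * ∑ ω : V n × V n × (Fin d → V n), #(nt (pull E ω.1 ω.2.1 ω.2.2)) ≤
      8 ^ d * ((2 ^ n) ^ d * corners E) := by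
  classical
  have h1 : ∀ ω : V n × V n × (Fin d → V n), #(nt (pull E ω.1 ω.2.1 ω.2.2)) =
      ∑ t : V d × V d × V d, if t ∈ nt (pull E ω.1 ω.2.1 ω.2.2) then 1 else 0 := by
    intro ω
    rw [← Finset.card_filter]
    congr 1
    ext t
    simp
  simp_rw [h1]
  rw [Finset.sum_comm, Finset.mul_sum]
  have h2 : ∀ t : V d × V d × V d, 2 ^ n * (∑ ω : V n × V n × (Fin d → V n),
      if t ∈ nt (pull E ω.1 ω.2.1 ω.2.2) then 1 else 0) ≤ (2 ^ n) ^ d * corners E := by
    intro t
    rw [← Finset.card_filter]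
    by_cases ht : t.2.2 = 0
    · rw [Finset.card_eq_zero.2, mul_zero]
      · exact Nat.zero_le _
      · rw [Finset.filter_eq_empty_iff]
        intro ω _ h
        exact (mem_filter.1 h).2.1 ht
    obtain ⟨i, hi⟩ : ∃ i, t.2.2 i ≠ 0 := by
      by_contra h
      push Not at h
      exact ht (funext h)
    have e1 : 2 ^ n * #(univ.filter fun ω : V n × V n × (Fin d → V n) =>
        t ∈ nt (pull E ω.1 ω.2.1 ω.2.2)) = #((univ : Finset (V n)) ×ˢ
        (univ.filter fun ω : V n × V n × (Fin d → V n) => t ∈ nt (pull E ω.1 ω.2.1 ω.2.2))) := by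
      rw [Finset.card_product, Finset.card_univ, card_V]
    have e2 : (2 ^ n) ^ d * corners E = #((univ : Finset (Fin d → V n)) ×ˢ
        ({t : V n × V n × V n | (t.1, t.2.1) ∈ E ∧ (t.1, t.2.1 + t.2.2) ∈ E ∧
          (t.1 + t.2.2, t.2.1) ∈ E} : Finset _)) := by
      rw [Finset.card_product, Finset.card_univ, Fintype.card_fun, card_V, Fintype.card_fin, corners]
    rw [e1, e2]
    refine Finset.card_le_card_of_injOn (fun q => (Function.update q.2.2.2 i q.1,
      (q.2.1 + lin q.2.2.2 t.1, q.2.2.1 + lin q.2.2.2 t.2.1, lin q.2.2.2 t.2.2))) ?_ ?_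
    · intro q hq
      rw [mem_coe, mem_product] at hq
      have h3 := (mem_filter.1 hq.2).2
      simp only [nt, pull, mem_filter, mem_univ, true_and] at h3
      rw [mem_coe, mem_product]
      refine ⟨mem_univ _, ?_⟩
      rw [mem_filter]
      refine ⟨mem_univ _, h3.2.1, ?_, ?_⟩
      · have := h3.2.2.1
        rw [lin_add, ← add_assoc] at this
        exact this
      · have := h3.2.2.2
        rw [lin_add, ← add_assoc] at this
        exact this
    · intro q _ q' _ h
      simp only [Prod.mk.injEq] at h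
      obtain ⟨h3, h4, h5, h6⟩ := h
      have e3 : q.1 = q'.1 := by
        have := congrFun h3 i
        rwa [Function.update_self, Function.update_self] at this
      have e4 : ∀ j, j ≠ i → q.2.2.2 j = q'.2.2.2 j := by
        intro j hj
        have := congrFun h3 j
        rwa [Function.update_of_ne hj, Function.update_of_ne hj] at this
      have e5 : q.2.2.2 i = q'.2.2.2 i := by
        have h7 := h6
        unfold lin at h7
        rw [← Finset.add_sum_erase _ _ (mem_univ i), ← Finset.add_sum_erase (univ) (fun j => t.2.2 j • q'.2.2.2 j) (mem_univ i)] at h7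
        have h8 : ∑ j ∈ univ.erase i, t.2.2 j • q.2.2.2 j = ∑ j ∈ univ.erase i, t.2.2 j • q'.2.2.2 j :=
          Finset.sum_congr rfl fun j hj => by rw [e4 j (mem_erase.1 hj).1]
        rw [h8] at h7
        have h9 := add_right_cancel h7
        have h10 : t.2.2 i = 1 := by
          revert hi
          generalize t.2.2 i = a
          revert a
          decide
        rw [h10, one_smul, one_smul] at h9
        exact h9
      have e6 : q.2.2.2 = q'.2.2.2 := by
        funext j
        by_cases hj : j = i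
        · rw [hj]; exact e5
        · exact e4 j hj
      rw [e6] at h4 h5
      exact Prod.ext e3 (Prod.ext (add_right_cancel h4) (Prod.ext (add_right_cancel h5) e6))
  refine (Finset.sum_le_sum fun t _ => h2 t).trans (le_of_eq ?_)
  rw [Finset.sum_const, Finset.card_univ, Fintype.card_prod, Fintype.card_prod, card_V, smul_eq_mul]
  congr 1
  rw [← mul_pow, ← mul_pow]
  norm_num

/-- If the corner-free sets of the class in dimension `d` have at most `b` elements, then a set of
the class has many corners. -/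
theorem varnavides (E : Finset (V n × V n)) (hE : Additive E) (b : ℝ)
    (hb : ∀ B : Finset (V d × V d), Additive B → CornerFree B → (#B : ℝ) ≤ b) :
    ((#E : ℝ) - 4 ^ n * (b / 4 ^ d)) * 2 ^ n ≤ 8 ^ d * corners E := by
  classical
  set Ω := V n × V n × (Fin d → V n)
  have hb0 : 0 ≤ b := by
    have h := hb ∅ ?_ ?_
    · simpa using h
    · refine ⟨ℤ, inferInstance, fun _ => 1, fun _ => 0, fun _ => 0, fun x y => ?_⟩
      simp
    · intro x y z h
      simp at h
  -- pointwise
  have h1 : ∀ ω : Ω, (#(pull E ω.1 ω.2.1 ω.2.2) : ℝ) ≤ 4 ^ d * #(nt (pull E ω.1 ω.2.1 ω.2.2)) + b := by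
    intro ω
    by_cases hc : CornerFree (pull E ω.1 ω.2.1 ω.2.2)
    · have := hb _ (additive_pull hE ω.1 ω.2.1 ω.2.2) hc
      have h3 : (0 : ℝ) ≤ 4 ^ d * #(nt (pull E ω.1 ω.2.1 ω.2.2)) := by positivity
      linarith
    · have h3 : 1 ≤ #(nt (pull E ω.1 ω.2.1 ω.2.2)) := by
        unfold CornerFree at hc
        push Not at hc
        obtain ⟨x, y, z, h4, h5, h6, h7⟩ := hc
        refine Finset.card_pos.2 ⟨(x, y, z), ?_⟩
        rw [nt, mem_filter]
        exact ⟨mem_univ _, h7, h4, h5, h6⟩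
      have h4 : #(pull E ω.1 ω.2.1 ω.2.2) ≤ 4 ^ d := by
        refine (Finset.card_le_univ _).trans (le_of_eq ?_)
        rw [Fintype.card_prod, card_V, ← mul_pow]
        norm_num
      have h5 : (#(pull E ω.1 ω.2.1 ω.2.2) : ℝ) ≤ 4 ^ d := by exact_mod_cast h4
      have h6 : (1 : ℝ) ≤ #(nt (pull E ω.1 ω.2.1 ω.2.2)) := by exact_mod_cast h3
      nlinarith [show (0 : ℝ) < 4 ^ d by positivity]
  have h2 := Finset.sum_le_sum fun (ω : Ω) (_ : ω ∈ (univ : Finset Ω)) => h1 ω
  rw [Finset.sum_add_distrib, ← Finset.mul_sum, Finset.sum_const, Finset.card_univ, nsmul_eq_mul] at h2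
  have h3 : (Fintype.card Ω : ℝ) = 4 ^ n * (2 ^ n) ^ d := by
    have : Fintype.card Ω = 2 ^ n * (2 ^ n * (2 ^ n) ^ d) := by
      have h0 : Fintype.card (Fin d → V n) = (2 ^ n) ^ d := by
        rw [Fintype.card_fun, card_V, Fintype.card_fin]
      rw [Fintype.card_prod, Fintype.card_prod, h0, card_V]
    rw [this]; push_cast
    rw [← mul_assoc, ← mul_pow]; norm_num
  rw [h3] at h2
  have h4 : (∑ ω : Ω, (#(pull E ω.1 ω.2.1 ω.2.2) : ℝ)) = 4 ^ d * (#E * (2 ^ n) ^ d) := by
    exact_mod_cast sum_pull (d := d) E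
  rw [h4] at h2
  have h5 : (2 : ℝ) ^ n * ∑ ω : Ω, (#(nt (pull E ω.1 ω.2.1 ω.2.2)) : ℝ) ≤
      8 ^ d * ((2 ^ n) ^ d * corners E) := by exact_mod_cast sum_nt (d := d) E
  set S : ℝ := ∑ ω : Ω, (#(nt (pull E ω.1 ω.2.1 ω.2.2)) : ℝ) with hS
  have hM : (0 : ℝ) < (2 ^ n) ^ d := by positivity
  have h4d : (0 : ℝ) < 4 ^ d := by positivity
  have h2n : (0 : ℝ) < 2 ^ n := by positivity
  -- divide by `(2 ^ n) ^ d`
  have h6 : ((#E : ℝ) - 4 ^ n * (b / 4 ^ d)) * 2 ^ n * (4 ^ d * (2 ^ n) ^ d) ≤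
      8 ^ d * corners E * (4 ^ d * (2 ^ n) ^ d) := by
    have e1 : ((#E : ℝ) - 4 ^ n * (b / 4 ^ d)) * 2 ^ n * (4 ^ d * (2 ^ n) ^ d) =
        2 ^ n * (4 ^ d * (#E * (2 ^ n) ^ d) - 4 ^ n * (2 ^ n) ^ d * b) := by
      field_simp
    rw [e1]
    calc (2 : ℝ) ^ n * (4 ^ d * (#E * (2 ^ n) ^ d) - 4 ^ n * (2 ^ n) ^ d * b)
        ≤ 2 ^ n * (4 ^ d * S) := mul_le_mul_of_nonneg_left (by linarith) h2n.le
      _ = 4 ^ d * (2 ^ n * S) := by ring
      _ ≤ 4 ^ d * (8 ^ d * ((2 ^ n) ^ d * corners E)) := mul_le_mul_of_nonneg_left h5 h4d.le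
      _ = _ := by ring
  exact le_of_mul_le_mul_right h6 (by positivity)

end Pool.Agent.Helper45.AE
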